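import Pool.Agent.Run7.h681.CongPairs

set_option autoImplicit false

/-!
# Clusters of congruent numbers of bounded length in arithmetic progressions
-/

namespace Pool.Agent.Run7.h681.CP

open Finset Filter
open Pool.Agent.TH4.CT
open scoped Classical

lemma not_sq_dvd' {p : ℕ} (hp : p.Prime) {n : ℕ} (hn : Squarefree n)
    (h : (p : ℤ) ^ 2 ∣ (n : ℤ)) : False := by
  have h1 : p * p ∣ n := by
    rw [← pow_two]; exact_mod_cast h
  exact hp.one_lt.ne' (Nat.isUnit_iff.1 (hn p h1))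

/-- the quadratic factors -/
def qf (A W : ℕ) (x : ℕ × ℤ) (t : ℤ) : ℤ :=
  (W : ℤ) ^ 2 * t ^ 2 + 2 * W * t + (1 - x.2 * A * ((W : ℤ) * (x.1 + 1)) ^ 2)

/-- the numbers -/
def qv (A W i : ℕ) (t : ℤ) : ℤ :=
  A * ((1 + W * t) ^ 4 - (A : ℤ) ^ 2 * ((W : ℤ) * (i + 1)) ^ 4)

lemma qv_eq (A W i : ℕ) (t : ℤ) :
    qv A W i t = A * (qf A W (i, 1) t * qf A W (i, -1) t) := by
  simp only [qv, qf]; ring

section
variable (A M k : ℕ)

/-- the bound -/
def NN : ℕ := A * M * (k + 1) + 2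

/-- the modulus -/
def WW : ℕ := (NN A M k).factorial

lemma WW_pos : 0 < WW A M k := Nat.factorial_pos _

variable {A M k}

lemma nd_W {p : ℕ} (hp : p.Prime) (h : NN A M k < p) : ¬ (p : ℤ) ∣ (WW A M k : ℤ) := by
  intro h1
  have h2 : p ∣ WW A M k := by exact_mod_cast h1
  have := (Nat.Prime.dvd_factorial hp).1 h2
  omega

lemma le_NN_A (hM : 0 < M) : A ≤ NN A M k := by
  unfold NN
  have : A * 1 * 1 ≤ A * M * (k + 1) := by gcongr <;> omega
  omega

lemma le_NN_M (hA : 0 < A) : M ≤ NN A M k := by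
  unfold NN
  have : 1 * M * 1 ≤ A * M * (k + 1) := by gcongr <;> omega
  omega

lemma le_NN_k (hA : 0 < A) (hM : 0 < M) : k + 1 ≤ NN A M k := by
  unfold NN
  have : 1 * 1 * (k + 1) ≤ A * M * (k + 1) := by gcongr <;> omega
  omega

lemma nd_of_le {p m : ℕ} (h : NN A M k < p) (hm : 0 < m) (hmN : m ≤ NN A M k) :
    ¬ (p : ℤ) ∣ (m : ℤ) := by
  intro h1
  have h2 : p ∣ m := by exact_mod_cast h1
  have := Nat.le_of_dvd hm h2
  omega

lemma nd_disc (hA : 0 < A) (hM : 0 < M) {p : ℕ} (hp : p.Prime) (h : NN A M k < p) {i : ℕ}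
    (hi : i < k) (a b c d e : ℕ) : ¬ (p : ℤ) ∣ (2 : ℤ) ^ a * (WW A M k : ℤ) ^ b * (A : ℤ) ^ c *
      ((WW A M k : ℤ) * (i + 1)) ^ d * (-1) ^ e := by
  have hpp : Prime (p : ℤ) := Nat.prime_iff_prime_int.1 hp
  have h2 : ¬ (p : ℤ) ∣ 2 := by
    have := nd_of_le (A := A) (M := M) (k := k) (p := p) (m := 2) h (by norm_num)
      (by unfold NN; omega)
    exact_mod_cast this
  have hW := nd_W hp h
  have hAp := nd_of_le h hA (le_NN_A hM)
  have hi1 : ¬ (p : ℤ) ∣ ((i : ℤ) + 1) := by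
    have := nd_of_le (m := i + 1) h (by omega) (by have := le_NN_k (k := k) hA hM; omega)
    exact_mod_cast this
  have h1 : ¬ (p : ℤ) ∣ (-1) := by
    intro h3
    rw [Int.dvd_neg] at h3
    exact hp.one_lt.ne' (by exact_mod_cast Int.eq_one_of_dvd_one (by positivity) h3)
  intro h3
  rcases hpp.dvd_or_dvd h3 with h3 | h3
  · rcases hpp.dvd_or_dvd h3 with h3 | h3
    · rcases hpp.dvd_or_dvd h3 with h3 | h3
      · rcases hpp.dvd_or_dvd h3 with h3 | h3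
        · exact h2 (hpp.dvd_of_dvd_pow h3)
        · exact hW (hpp.dvd_of_dvd_pow h3)
      · exact hAp (hpp.dvd_of_dvd_pow h3)
    · rcases hpp.dvd_or_dvd (hpp.dvd_of_dvd_pow h3) with h3 | h3
      · exact hW h3
      · exact hi1 h3
  · exact h1 (hpp.dvd_of_dvd_pow h3)

lemma qf_roots (hA : 0 < A) (hM : 0 < M) {p : ℕ} (hp : p.Prime) (h : NN A M k < p)
    (x : ℕ × ℤ) (hx : x ∈ range k ×ˢ ({1, -1} : Finset ℤ)) :
    TwoRoots p (qf A (WW A M k) x) := by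
  obtain ⟨i, s⟩ := x
  simp only [mem_product, mem_range, mem_insert, mem_singleton] at hx
  obtain ⟨hi, hs⟩ := hx
  refine twoRoots_quadratic hp ((WW A M k : ℤ) ^ 2) (2 * WW A M k)
    (1 - s * A * ((WW A M k : ℤ) * (i + 1)) ^ 2) ?_ ?_
  · intro h1
    exact nd_W hp h ((Nat.prime_iff_prime_int.1 hp).dvd_of_dvd_pow h1)
  · rcases hs with rfl | rfl
    · have := nd_disc hA hM hp h hi 2 2 1 2 0
      intro h1
      apply this
      convert h1 using 1
      ring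
    · have := nd_disc hA hM hp h hi 2 2 1 2 1
      intro h1
      apply this
      convert h1 using 1
      ring

lemma qf_size (hA : 0 < A) {W : ℕ} (hW : 0 < W) (x : ℕ × ℤ)
    (hx : x ∈ range k ×ˢ ({1, -1} : Finset ℤ)) (t : ℤ) (ht : ((A * W * (k + 1) : ℕ) : ℤ) < t) :
    qf A W x t ≠ 0 ∧ |qf A W x t| ≤ (((4 * W : ℕ) : ℤ) * t) ^ 2 := by
  obtain ⟨i, s⟩ := x
  simp only [mem_product, mem_range, mem_insert, mem_singleton] at hx
  obtain ⟨hi, hs⟩ := hx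
  push_cast at ht ⊢
  have hA' : (1 : ℤ) ≤ A := by exact_mod_cast hA
  have hW' : (1 : ℤ) ≤ W := by exact_mod_cast hW
  have hi' : (i : ℤ) + 1 ≤ k + 1 := by exact_mod_cast (by omega : i + 1 ≤ k + 1)
  have ht0 : (0 : ℤ) < t := lt_of_le_of_lt (by positivity) ht
  have h1 : (A : ℤ) * (W * (i + 1)) < 1 + W * t := by
    have h2 : (A : ℤ) * (W * (i + 1)) ≤ A * W * (k + 1) := by
      rw [← mul_assoc]; gcongr
    nlinarith
  have h3 : (A : ℤ) * (W * (i + 1)) ^ 2 < (1 + W * t) ^ 2 := by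
    have h4 : (A : ℤ) * (W * (i + 1)) ^ 2 ≤ (A * (W * (i + 1))) ^ 2 := by
      have hAA : (A : ℤ) ≤ (A : ℤ) ^ 2 := by nlinarith
      calc (A : ℤ) * (W * (i + 1)) ^ 2 ≤ (A : ℤ) ^ 2 * (W * (i + 1)) ^ 2 := by gcongr
        _ = _ := by ring
    have h5 : ((A : ℤ) * (W * (i + 1))) ^ 2 < (1 + W * t) ^ 2 :=
      pow_lt_pow_left₀ h1 (by positivity) two_ne_zero
    linarith
  have h6 : (0 : ℤ) ≤ A * (W * (i + 1)) ^ 2 := by positivity
  have h7 : (1 + (W : ℤ) * t) ^ 2 ≤ (2 * W * t) ^ 2 := by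
    apply pow_le_pow_left₀ (by positivity)
    nlinarith
  have h8 : (4 * (W : ℤ) * t) ^ 2 = 4 * (2 * W * t) ^ 2 := by ring
  rcases hs with rfl | rfl
  · have e : qf A W (i, 1) t = (1 + W * t) ^ 2 - A * (W * (i + 1)) ^ 2 := by
      simp only [qf]; ring
    rw [e, h8]
    refine ⟨by linarith, ?_⟩
    rw [abs_le]
    constructor <;> nlinarith
  · have e : qf A W (i, -1) t = (1 + W * t) ^ 2 + A * (W * (i + 1)) ^ 2 := by
      simp only [qf]; ring
    rw [e, h8]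
    refine ⟨by positivity, ?_⟩
    rw [abs_le]
    constructor <;> nlinarith

lemma qv_fac (hA : 0 < A) (hM : 0 < M) {p : ℕ} (hp : p.Prime) (h : NN A M k < p) {i : ℕ}
    (hi : i < k) (t : ℤ) (hd : (p : ℤ) ^ 2 ∣ qv A (WW A M k) i t) :
    ∃ x ∈ range k ×ˢ ({1, -1} : Finset ℤ), (p : ℤ) ^ 2 ∣ qf A (WW A M k) x t := by
  rw [qv_eq] at hd
  have hAp := nd_of_le h hA (le_NN_A (k := k) hM)
  have h1 := IsCoprime.dvd_of_dvd_mul_left ((isCoprime_of hp hAp).pow_left) hd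
  rcases sq_dvd_or hp (by
    rintro ⟨ha, hb⟩
    have h2 := dvd_sub hb ha
    apply nd_disc hA hM hp h hi 1 0 1 2 0
    have e : (2 : ℤ) ^ 1 * (WW A M k : ℤ) ^ 0 * (A : ℤ) ^ 1 *
        ((WW A M k : ℤ) * (i + 1)) ^ 2 * (-1) ^ 0 =
        qf A (WW A M k) (i, -1) t - qf A (WW A M k) (i, 1) t := by
      simp only [qf]; ring
    rw [e]; exact h2) h1 with h2 | h2
  · exact ⟨(i, 1), by simp [hi], h2⟩
  · exact ⟨(i, -1), by simp [hi], h2⟩

lemma qv_per (A W i : ℕ) (n t t' : ℤ) (h : n ∣ t - t') : n ∣ qv A W i t - qv A W i t' := by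
  have h1 : t' ≡ t [ZMOD n] := Int.modEq_iff_dvd.2 h
  apply Int.modEq_iff_dvd.1
  simp only [qv]
  gcongr

lemma not_dvd_one_sub {p : ℕ} (hp : p.Prime) {z : ℤ} (hz : (p : ℤ) ∣ z) : ¬ (p : ℤ) ∣ 1 - z := by
  intro h
  have h1 := dvd_add h hz
  rw [sub_add_cancel] at h1
  exact hp.one_lt.ne' (by exact_mod_cast Int.eq_one_of_dvd_one (by positivity) h1)

lemma qv_loc (hA : Squarefree A) (hM : 0 < M) (p : ℕ) (hp : p.Prime) :
    ∃ t : ℕ, ∀ i ∈ range k, ¬ (p : ℤ) ^ 2 ∣ qv A (WW A M k) i t := by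
  have hA0 : 0 < A := Nat.pos_of_ne_zero hA.ne_zero
  have hpp : Prime (p : ℤ) := Nat.prime_iff_prime_int.1 hp
  rcases le_or_gt p (NN A M k) with h | h
  · refine ⟨0, fun i _ hd => ?_⟩
    have hW : (p : ℤ) ∣ (WW A M k : ℤ) := by
      exact_mod_cast (Nat.Prime.dvd_factorial hp).2 h
    have e : qv A (WW A M k) i ((0 : ℕ) : ℤ) =
        A * (1 - (A : ℤ) ^ 2 * ((WW A M k : ℤ) * (i + 1)) ^ 4) := by
      simp only [qv]; push_cast; ring
    rw [e] at hd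
    have h1 : ¬ (p : ℤ) ∣ 1 - (A : ℤ) ^ 2 * ((WW A M k : ℤ) * (i + 1)) ^ 4 := by
      apply not_dvd_one_sub hp
      apply Dvd.dvd.mul_left
      exact dvd_pow (hW.mul_right _) (by norm_num)
    have h2 := IsCoprime.dvd_of_dvd_mul_right ((isCoprime_of hp h1).pow_left) hd
    exact not_sq_dvd' hp hA h2
  · have hW := nd_W hp h
    obtain ⟨a, b, hab⟩ := isCoprime_of hp hW
    have hp0 : (0 : ℤ) < p := by exact_mod_cast hp.pos
    refine ⟨((-b) % p).toNat, fun i hi hd => ?_⟩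
    have hc : ((((-b) % p).toNat : ℕ) : ℤ) = (-b) % p :=
      Int.toNat_of_nonneg (Int.emod_nonneg _ hp0.ne')
    rw [hc] at hd
    have h1 : (p : ℤ) ∣ 1 + WW A M k * ((-b) % p) := by
      have h2 : (p : ℤ) ∣ (-b) - (-b) % p := Int.dvd_self_sub_emod
      have e : 1 + (WW A M k : ℤ) * ((-b) % p) =
          a * p - WW A M k * ((-b) - (-b) % p) := by
        rw [← hab]; ring
      rw [e]
      exact dvd_sub (dvd_mul_left _ _) (h2.mul_left _)
    have h3 : (p : ℤ) ∣ qv A (WW A M k) i ((-b) % p) := (dvd_pow_self _ two_ne_zero).trans hd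
    have h4 : (p : ℤ) ∣ A * (1 + WW A M k * ((-b) % p)) ^ 4 :=
      (dvd_pow h1 (by norm_num)).mul_left _
    have h5 := dvd_sub h4 h3
    apply nd_disc hA0 hM hp h (mem_range.1 hi) 0 0 3 4 0
    have e : (2 : ℤ) ^ 0 * (WW A M k : ℤ) ^ 0 * (A : ℤ) ^ 3 *
        ((WW A M k : ℤ) * (i + 1)) ^ 4 * (-1) ^ 0 =
        A * (1 + WW A M k * ((-b) % p)) ^ 4 - qv A (WW A M k) i ((-b) % p) := by
      simp only [qv]; ring
    rw [e]; exact h5

/-- a positive proportion of simultaneously squarefree values -/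
lemma tuples (hA : Squarefree A) (hM : 0 < M) :
    ∃ c : ℝ, 0 < c ∧ ∀ᶠ T : ℕ in atTop, c * T ≤
      (((Ioc (0 : ℤ) T).filter (fun t : ℤ => ((A * WW A M k * (k + 1) : ℕ) : ℤ) < t ∧
        ∀ i ∈ range k, Squarefree (qv A (WW A M k) i t))).card : ℝ) := by
  have hA0 : 0 < A := Nat.pos_of_ne_zero hA.ne_zero
  have hs := sieve (range k ×ˢ ({1, -1} : Finset ℤ)) (qf A (WW A M k)) (range k)
    (qv A (WW A M k)) (NN A M k) (4 * WW A M k) (A * WW A M k * (k + 1)) ?_ ?_ ?_ ?_ ?_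
  · obtain ⟨c, hc, h⟩ := hs
    refine ⟨c, hc, ?_⟩
    filter_upwards [h] with T hT
    convert hT
  · intro p hp h2 x hx
    exact qf_roots hA0 hM hp h2 x hx
  · intro x hx t ht
    exact qf_size hA0 (WW_pos A M k) x hx t ht
  · intro p hp h2 i hi t h
    exact qv_fac hA0 hM hp h2 (mem_range.1 hi) t h
  · intro i _ n t t' h
    exact qv_per A _ i n t t' h
  · intro p hp
    exact qv_loc hA hM p hp

end

/-- the numbers are congruent -/
lemma cong_qv {A W i n : ℕ} {t : ℤ} (hA : 0 < A) (hW : 0 < W) (hx : 0 < 1 + (W : ℤ) * t)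
    (hn : (n : ℤ) = qv A W i t) (hpos : 0 < qv A W i t) : Cong n := by
  have hA' : (0 : ℤ) < A := by exact_mod_cast hA
  have hW' : (0 : ℤ) < W := by exact_mod_cast hW
  have hν : (0 : ℤ) < (W : ℤ) * (i + 1) := by positivity
  apply cong_of (R := (1 + W * t) ^ 2) (S := A * ((W : ℤ) * (i + 1)) ^ 2)
    (m := (1 + W * t) * ((W : ℤ) * (i + 1)))
  · positivity
  · have h1 : 0 < (1 + W * t) ^ 4 - (A : ℤ) ^ 2 * ((W : ℤ) * (i + 1)) ^ 4 := by
      have : qv A W i t = A * ((1 + W * t) ^ 4 - (A : ℤ) ^ 2 * ((W : ℤ) * (i + 1)) ^ 4) := rfl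
      rw [this] at hpos
      exact (mul_pos_iff_of_pos_left hA').1 hpos
    have h2 : (A * ((W : ℤ) * (i + 1)) ^ 2) ^ 2 < ((1 + W * t) ^ 2) ^ 2 := by
      have e1 : ((A : ℤ) * ((W : ℤ) * (i + 1)) ^ 2) ^ 2 =
        (A : ℤ) ^ 2 * ((W : ℤ) * (i + 1)) ^ 4 := by ring
      have e2 : (((1 : ℤ) + W * t) ^ 2) ^ 2 = (1 + W * t) ^ 4 := by ring
      rw [e1, e2]; linarith
    exact lt_of_pow_lt_pow_left₀ 2 (by positivity) h2
  · positivity
  · rw [hn]
    simp only [qv]; ring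

/-- the base point of the cluster -/
def base (A W k : ℕ) (t : ℤ) : ℤ := qv A W k t

/-- the shifts -/
def sh (A W k i : ℕ) : ℕ := A ^ 3 * ((W * (k + 1)) ^ 4 - (W * (i + 1)) ^ 4)

lemma sh_cast {A W k i : ℕ} (hi : i < k) :
    ((sh A W k i : ℕ) : ℤ) = (A : ℤ) ^ 3 * (((W : ℤ) * (k + 1)) ^ 4 - ((W : ℤ) * (i + 1)) ^ 4) := by
  unfold sh
  have h : (W * (i + 1)) ^ 4 ≤ (W * (k + 1)) ^ 4 := by gcongr
  push_cast [Nat.cast_sub h]
  ring

lemma base_sh {A W k i : ℕ} (hi : i < k) (t : ℤ) :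
    qv A W i t = qv A W k t + (sh A W k i : ℕ) := by
  rw [sh_cast hi]
  simp only [qv]; ring

lemma sh_inj {A W k : ℕ} (hA : 0 < A) (hW : 0 < W) : Set.InjOn (sh A W k) (range k) := by
  intro i hi j hj h
  have hi' := mem_range.1 (mem_coe.1 hi)
  have hj' := mem_range.1 (mem_coe.1 hj)
  have h1 : ((sh A W k i : ℕ) : ℤ) = (sh A W k j : ℕ) := by exact_mod_cast h
  rw [sh_cast hi', sh_cast hj'] at h1
  have hA' : (A : ℤ) ^ 3 ≠ 0 := by positivity
  have h2 := mul_left_cancel₀ hA' h1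
  have h3 : ((W : ℤ) * (i + 1)) ^ 4 = ((W : ℤ) * (j + 1)) ^ 4 := by linarith
  have h4 : (W * (i + 1)) ^ 4 = (W * (j + 1)) ^ 4 := by exact_mod_cast h3
  have h5 := Nat.pow_left_injective (by norm_num : (4 : ℕ) ≠ 0) h4
  have h6 := Nat.eq_of_mul_eq_mul_left hW h5
  omega

/-- all `n + h` are squarefree, congruent and `≡ A` modulo `M` -/
def Clus (H : Finset ℕ) (A M n : ℕ) : Prop :=
  ∀ h ∈ H, Squarefree (n + h) ∧ n + h ≡ A [MOD M] ∧ Cong (n + h)

/-- **Clusters.** -/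
theorem clusters (A M k : ℕ) (hA : Squarefree A) (hM : 0 < M) :
    ∃ H : Finset ℕ, H.card = k ∧ ∃ c : ℝ, 0 < c ∧ ∀ᶠ X : ℕ in atTop,
      c * (X : ℝ) ^ (1 / ((4 : ℕ) : ℝ)) ≤ (((Icc 1 X).filter (Clus H A M)).card : ℝ) := by
  have hA0 : 0 < A := Nat.pos_of_ne_zero hA.ne_zero
  have hW0 : 0 < WW A M k := WW_pos A M k
  have hMW : M ∣ WW A M k := Nat.dvd_factorial hM (le_NN_M hA0)
  obtain ⟨c, hc, h⟩ := tuples (k := k) hA hM
  generalize WW A M k = W at h hW0 hMW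
  have hA' : (1 : ℤ) ≤ A := by exact_mod_cast hA0
  have hW' : (1 : ℤ) ≤ W := by exact_mod_cast hW0
  obtain ⟨N0, hN0⟩ : ∃ N0 : ℕ, N0 = A * W * (k + 1) := ⟨_, rfl⟩
  rw [← hN0] at h
  refine ⟨(range k).image (sh A W k), ?_, ?_⟩
  · rw [card_image_of_injOn (sh_inj hA0 hW0), card_range]
  have hpos : ∀ t : ℕ, N0 < t → 0 < qv A W k t := by
    intro t ht
    have ht' : ((A * W * (k + 1) : ℕ) : ℤ) < t := by rw [← hN0]; exact_mod_cast ht
    push_cast at ht'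
    have h1 : (A : ℤ) * (W * (k + 1)) < 1 + W * t := by nlinarith
    have h3 : ((A : ℤ) * (W * (k + 1))) ^ 4 < (1 + W * t) ^ 4 :=
      pow_lt_pow_left₀ h1 (by positivity) (by norm_num)
    have h4 : (A : ℤ) ^ 2 * ((W : ℤ) * (k + 1)) ^ 4 ≤ (A * (W * (k + 1))) ^ 4 := by
      have hAA : (A : ℤ) ^ 2 ≤ (A : ℤ) ^ 4 := pow_le_pow_right₀ hA' (by norm_num)
      calc (A : ℤ) ^ 2 * ((W : ℤ) * (k + 1)) ^ 4 ≤ (A : ℤ) ^ 4 * ((W : ℤ) * (k + 1)) ^ 4 := by
            gcongr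
        _ = _ := by ring
    simp only [qv]
    apply mul_pos (by omega)
    linarith
  have hmono : ∀ t t' : ℕ, t < t' → qv A W k t < qv A W k t' := by
    intro t t' htt
    have h1 : (1 : ℤ) + W * t < 1 + W * t' := by
      have : (t : ℤ) < t' := by exact_mod_cast htt
      nlinarith
    have h2 : ((1 : ℤ) + W * t) ^ 4 < (1 + W * t') ^ 4 :=
      pow_lt_pow_left₀ h1 (by positivity) (by norm_num)
    simp only [qv]
    nlinarith
  obtain ⟨C, hCdef⟩ : ∃ C : ℕ, C = 16 * A * W ^ 4 := ⟨_, rfl⟩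
  have hC0 : 0 < C := by rw [hCdef]; positivity
  have hmain := transfer C 4 N0 hC0 (by norm_num)
    (fun t => (qv A W k t).toNat) (fun t => ∀ i ∈ range k, Squarefree (qv A W i t))
    (Clus ((range k).image (sh A W k)) A M) ?_ ?_ ?_ ?_ hc ?_
  · exact hmain
  · intro t ht
    have := hpos t ht
    show 0 < (qv A W k t).toNat
    omega
  · intro t ht
    have ht1 : (1 : ℤ) ≤ t := by
      have : 1 ≤ t := by omega
      exact_mod_cast this
    have h1 : qv A W k t ≤ 16 * A * (W : ℤ) ^ 4 * (t : ℤ) ^ 4 := by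
      have h2 : (1 : ℤ) + W * t ≤ 2 * W * t := by nlinarith
      have h3 : ((1 : ℤ) + W * t) ^ 4 ≤ (2 * W * t) ^ 4 := pow_le_pow_left₀ (by positivity) h2 4
      have h4 : (0 : ℤ) ≤ (A : ℤ) ^ 2 * ((W : ℤ) * (k + 1)) ^ 4 := by positivity
      calc qv A W k t = A * ((1 + W * t) ^ 4 - (A : ℤ) ^ 2 * ((W : ℤ) * (k + 1)) ^ 4) := rfl
        _ ≤ A * ((2 * W * t) ^ 4) := by
          apply mul_le_mul_of_nonneg_left _ (by omega)
          linarith
        _ = _ := by ring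
    show (qv A W k t).toNat ≤ C * t ^ 4
    rw [hCdef]
    have h2 : (((qv A W k t).toNat : ℕ) : ℤ) = qv A W k t := Int.toNat_of_nonneg (hpos t ht).le
    have h3 : (((qv A W k t).toNat : ℕ) : ℤ) ≤ ((16 * A * W ^ 4 * t ^ 4 : ℕ) : ℤ) := by
      rw [h2]; push_cast; exact h1
    exact_mod_cast h3
  · intro t t' ht ht' heq
    have heq' : qv A W k t = qv A W k t' := by
      have h2 : (((qv A W k t).toNat : ℕ) : ℤ) = qv A W k t := Int.toNat_of_nonneg (hpos t ht).le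
      have h3 : (((qv A W k t').toNat : ℕ) : ℤ) = qv A W k t' :=
        Int.toNat_of_nonneg (hpos t' ht').le
      rw [← h2, ← h3]
      exact_mod_cast heq
    rcases lt_trichotomy t t' with h1 | h1 | h1
    · exact absurd heq' (hmono _ _ h1).ne
    · exact h1
    · exact absurd heq' (hmono _ _ h1).ne'
  · intro t ht hG h' hh'
    obtain ⟨i, hi, rfl⟩ := mem_image.1 hh'
    have hik := mem_range.1 hi
    have h2 : (((qv A W k t).toNat : ℕ) : ℤ) = qv A W k t := Int.toNat_of_nonneg (hpos t ht).le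
    have h3 : (((qv A W k t).toNat + sh A W k i : ℕ) : ℤ) = qv A W i t := by
      push_cast
      rw [h2, base_sh hik]
    have hp : 0 < qv A W i t := by
      rw [base_sh hik]
      have := hpos t ht
      positivity
    refine ⟨?_, ?_, cong_qv hA0 hW0 (by positivity) h3 hp⟩
    · have := hG i hi
      rw [← h3] at this
      exact Int.squarefree_natCast.1 this
    · rw [← Int.natCast_modEq_iff, h3]
      apply Int.ModEq.symm
      rw [Int.modEq_iff_dvd]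
      obtain ⟨w, hw⟩ := hMW
      have hw' : (W : ℤ) = M * w := by exact_mod_cast hw
      refine ⟨A * (w * t * (4 + 6 * (W * t) + 4 * (W * t) ^ 2 + (W * t) ^ 3) -
        (A : ℤ) ^ 2 * (w * (i + 1)) * (W * (i + 1)) ^ 3), ?_⟩
      have e : qv A W i t - A = W * t * A * (4 + 6 * (W * t) + 4 * (W * t) ^ 2 + (W * t) ^ 3) -
        A * ((A : ℤ) ^ 2 * (W * (i + 1)) * (W * (i + 1)) ^ 3) := by
        simp only [qv]; ring
      rw [e]
      nth_rewrite 1 [hw']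
      nth_rewrite 4 [hw']
      ring
  · filter_upwards [h] with T hT
    refine hT.trans ?_
    rw [Nat.cast_le]
    convert toNat_count T N0 (fun t => ∀ i ∈ range k, Squarefree (qv A W i t))

end Pool.Agent.Run7.h681.CP
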