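import Pool.Agent.Run7.h681.CongPattern

set_option autoImplicit false

/-!
# Clusters of congruent numbers with prescribed classes modulo `8`: the count
-/

namespace Pool.Agent.Run7.h681.CQ

open Finset Filter
open Pool.Agent.TH4.CT
open Pool.Agent.Run7.h681.CP
open scoped Classical

/-- the selected classes modulo `32` -/
def sel (r : ℕ) : ℕ :=
  if r = 1 then 5 else if r = 2 then 7 else if r = 3 then 3 else if r = 5 then 11 else
    if r = 6 then 9 else 13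

lemma sel_lt (r : ℕ) : sel r < 32 := by
  unfold sel; split_ifs <;> norm_num

lemma sel_odd (r : ℕ) : sel r % 2 = 1 := by
  unfold sel; split_ifs <;> norm_num

lemma sel_mod {r : ℕ} (hr : r = 1 ∨ r = 2 ∨ r = 3 ∨ r = 5 ∨ r = 6 ∨ r = 7) :
    (sel r ^ 4 + 16 * r) % 128 = 1 := by
  rcases hr with rfl | rfl | rfl | rfl | rfl | rfl <;> norm_num [sel]

/-- the numbers are congruent -/
lemma cong_dd {k : ℕ} {s : ℕ → ℕ} {i n : ℕ} {t : ℤ} (hs : s i < 32) (hs2 : s i % 2 = 1)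
    (hx : 0 < 1 + 32 * (V k : ℤ) * t) (hn : (n : ℤ) = dd k s i t) (hpos : 0 < dd k s i t) :
    Cong n := by
  have hy0 : (0 : ℤ) < yy k s i := by exact_mod_cast yy_pos (k := k) hs hs2
  have h1 := dd_eq (k := k) hs hs2 t
  apply cong_of (R := (1 + 32 * V k * t) ^ 2) (S := (yy k s i : ℤ) ^ 2)
    (m := 4 * ((1 + 32 * V k * t) * yy k s i))
  · positivity
  · have h2 : ((yy k s i : ℤ) ^ 2) ^ 2 < ((1 + 32 * V k * t) ^ 2) ^ 2 := by
      have e1 : ((yy k s i : ℤ) ^ 2) ^ 2 = (yy k s i : ℤ) ^ 4 := by ring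
      have e2 : (((1 : ℤ) + 32 * V k * t) ^ 2) ^ 2 = (1 + 32 * V k * t) ^ 4 := by ring
      rw [e1, e2]; linarith
    exact lt_of_pow_lt_pow_left₀ 2 (by positivity) h2
  · positivity
  · rw [hn]
    linear_combination ((1 + 32 * (V k : ℤ) * t) ^ 2 * (yy k s i : ℤ) ^ 2) * h1

/-- the pattern -/
def Pat (k : ℕ) (h r : ℕ → ℕ) (n : ℕ) : Prop :=
  ∀ i < k, Squarefree (n + h i) ∧ (n + h i) % 8 = r i ∧ Cong (n + h i)

theorem patterns (k : ℕ) (r : ℕ → ℕ)
    (hr : ∀ i, r i = 1 ∨ r i = 2 ∨ r i = 3 ∨ r i = 5 ∨ r i = 6 ∨ r i = 7) :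
    ∃ h : ℕ → ℕ, (∀ i j, i < j → j < k → h i < h j) ∧ ∃ c : ℝ, 0 < c ∧ ∀ᶠ X : ℕ in atTop,
      c * (X : ℝ) ^ (1 / ((4 : ℕ) : ℝ)) ≤ (((Icc 1 X).filter (Pat k h r)).card : ℝ) := by
  obtain ⟨s, hsdef⟩ : ∃ s : ℕ → ℕ, s = fun i => sel (r i) := ⟨_, rfl⟩
  have hs : ∀ i, s i < 32 := fun i => by rw [hsdef]; exact sel_lt _
  have hs2 : ∀ i, s i % 2 = 1 := fun i => by rw [hsdef]; exact sel_odd _
  have hsr : ∀ i, (s i ^ 4 + 16 * r i) % 128 = 1 := fun i => by rw [hsdef]; exact sel_mod (hr i)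
  have hr4 : ∀ i, r i % 4 ≠ 0 := fun i => by rcases hr i with h | h | h | h | h | h <;> omega
  obtain ⟨c, hc, htup⟩ := tuples (k := k) (s := s) (r := r) hs hs2 hsr hr4
  obtain ⟨Y, hY⟩ : ∃ Y : ℕ, Y = V k ^ 8 * NB k := ⟨_, rfl⟩
  rw [← hY] at htup
  have hV : (1 : ℤ) ≤ V k := by exact_mod_cast V_pos k
  have hY1 : (1 : ℤ) ≤ Y := by
    rw [hY]
    have h1 := V_pos k
    have h2 : 0 < NB k := by unfold NB; omega
    have : 0 < V k ^ 8 * NB k := by positivity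
    exact_mod_cast this
  have hyY : ∀ i, (yy k s i : ℤ) ≤ Y := by
    intro i
    rw [hY]
    have : yy k s i ≤ V k ^ 8 * NB k := by
      unfold yy
      exact Nat.mul_le_mul_left _ (mm_le (hs i))
    exact_mod_cast this
  have hy0 : ∀ i, (0 : ℤ) < yy k s i := fun i => by
    exact_mod_cast yy_pos (k := k) (hs i) (hs2 i)
  have hYp : (0 : ℤ) < (Y : ℤ) ^ 4 := by positivity
  have hee : ∀ i, -(Y : ℤ) ^ 4 < ee k s i := by
    intro i
    have h1 := ee_eq (k := k) (hs i) (hs2 i)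
    have h2 : (yy k s i : ℤ) ^ 4 ≤ (Y : ℤ) ^ 4 := pow_le_pow_left₀ (hy0 i).le (hyY i) 4
    linarith
  obtain ⟨h, hh⟩ : ∃ h : ℕ → ℕ, h = fun i => (ee k s i + (Y : ℤ) ^ 4).toNat := ⟨_, rfl⟩
  have hcast : ∀ i, ((h i : ℕ) : ℤ) = ee k s i + (Y : ℤ) ^ 4 := by
    intro i
    rw [hh]
    exact Int.toNat_of_nonneg (by have := hee i; omega)
  refine ⟨h, ?_, ?_⟩
  · intro i j hij hjk
    have h1 := ee_eq (k := k) (hs i) (hs2 i)
    have h2 := ee_eq (k := k) (hs j) (hs2 j)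
    have h3 : yy k s j < yy k s i := by
      unfold yy
      apply Nat.mul_lt_mul_of_pos_left _ (pow_pos (V_pos k) 8)
      unfold mm
      have := hs j
      omega
    have h4 : (yy k s j : ℤ) ^ 4 < (yy k s i : ℤ) ^ 4 :=
      pow_lt_pow_left₀ (by exact_mod_cast h3) (hy0 j).le (by norm_num)
    have h5 : ((h i : ℕ) : ℤ) < h j := by
      rw [hcast, hcast]
      linarith
    exact_mod_cast h5
  have hbase : ∀ t : ℕ, Y < t → 0 < qq k t - (Y : ℤ) ^ 4 := by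
    intro t ht
    have ht' : (Y : ℤ) < t := by exact_mod_cast ht
    have h1 : (Y : ℤ) ^ 4 < (t : ℤ) ^ 4 := pow_lt_pow_left₀ ht' (by positivity) (by norm_num)
    have h2 : (t : ℤ) ^ 4 ≤ (V k * t) ^ 4 := by
      apply pow_le_pow_left₀ (by positivity)
      nlinarith
    have h3 : (0 : ℤ) ≤ V k * t := by positivity
    have h4 : (0 : ℤ) ≤ (V k * t) ^ 2 := by positivity
    have h5 : (0 : ℤ) ≤ (V k * t) ^ 3 := by positivity
    unfold qq
    nlinarith
  have hmono : ∀ t t' : ℕ, t < t' → qq k t < qq k t' := by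
    intro t t' htt
    have h1 : (t : ℤ) < t' := by exact_mod_cast htt
    have h2 : (V k : ℤ) * t < V k * t' := by nlinarith
    have h3 : (0 : ℤ) ≤ V k * t := by positivity
    have h4 := pow_lt_pow_left₀ h2 h3 (show (2 : ℕ) ≠ 0 by norm_num)
    have h5 := pow_lt_pow_left₀ h2 h3 (show (3 : ℕ) ≠ 0 by norm_num)
    have h6 := pow_lt_pow_left₀ h2 h3 (show (4 : ℕ) ≠ 0 by norm_num)
    unfold qq
    linarith
  obtain ⟨C, hC⟩ : ∃ C : ℕ, C = 74120 * V k ^ 4 := ⟨_, rfl⟩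
  have hC0 : 0 < C := by
    rw [hC]
    have := V_pos k
    positivity
  have hmain := transfer C 4 Y hC0 (by norm_num)
    (fun t => (qq k t - (Y : ℤ) ^ 4).toNat) (fun t => ∀ i ∈ range k, Squarefree (dd k s i t))
    (Pat k h r) ?_ ?_ ?_ ?_ hc ?_
  · exact hmain
  · intro t ht
    have := hbase t ht
    show 0 < (qq k t - (Y : ℤ) ^ 4).toNat
    omega
  · intro t ht
    have ht1 : (1 : ℤ) ≤ t := by
      have : 1 ≤ t := by omega
      exact_mod_cast this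
    have h1 : qq k t - (Y : ℤ) ^ 4 ≤ 74120 * (V k : ℤ) ^ 4 * (t : ℤ) ^ 4 := by
      have h2 : (1 : ℤ) ≤ V k * t := by nlinarith
      have h3 : (V k : ℤ) * t ≤ (V k * t) ^ 4 := le_self_pow₀ h2 (by norm_num)
      have h4 : ((V k : ℤ) * t) ^ 2 ≤ (V k * t) ^ 4 := pow_le_pow_right₀ h2 (by norm_num)
      have h5 : ((V k : ℤ) * t) ^ 3 ≤ (V k * t) ^ 4 := pow_le_pow_right₀ h2 (by norm_num)
      have e : 74120 * (V k : ℤ) ^ 4 * (t : ℤ) ^ 4 = 74120 * (V k * t) ^ 4 := by ring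
      rw [e]
      unfold qq
      linarith
    show (qq k t - (Y : ℤ) ^ 4).toNat ≤ C * t ^ 4
    rw [hC]
    have h2 : (((qq k t - (Y : ℤ) ^ 4).toNat : ℕ) : ℤ) = qq k t - (Y : ℤ) ^ 4 :=
      Int.toNat_of_nonneg (hbase t ht).le
    have h3 : (((qq k t - (Y : ℤ) ^ 4).toNat : ℕ) : ℤ) ≤ ((74120 * V k ^ 4 * t ^ 4 : ℕ) : ℤ) := by
      rw [h2]; push_cast; exact h1
    exact_mod_cast h3
  · intro t t' ht ht' heq
    have heq' : qq k t = qq k t' := by
      have h2 : (((qq k t - (Y : ℤ) ^ 4).toNat : ℕ) : ℤ) = qq k t - (Y : ℤ) ^ 4 :=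
        Int.toNat_of_nonneg (hbase t ht).le
      have h3 : (((qq k t' - (Y : ℤ) ^ 4).toNat : ℕ) : ℤ) = qq k t' - (Y : ℤ) ^ 4 :=
        Int.toNat_of_nonneg (hbase t' ht').le
      have h4 : (((qq k t - (Y : ℤ) ^ 4).toNat : ℕ) : ℤ) =
        (((qq k t' - (Y : ℤ) ^ 4).toNat : ℕ) : ℤ) := by exact_mod_cast heq
      rw [h2, h3] at h4
      linarith
    rcases lt_trichotomy t t' with h1 | h1 | h1
    · exact absurd heq' (hmono _ _ h1).ne
    · exact h1
    · exact absurd heq' (hmono _ _ h1).ne'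
  · intro t ht hG i hi
    have h2 : (((qq k t - (Y : ℤ) ^ 4).toNat : ℕ) : ℤ) = qq k t - (Y : ℤ) ^ 4 :=
      Int.toNat_of_nonneg (hbase t ht).le
    have h3 : (((qq k t - (Y : ℤ) ^ 4).toNat + h i : ℕ) : ℤ) = dd k s i t := by
      push_cast
      rw [h2, hcast]
      unfold dd
      ring
    have hp : 0 < dd k s i t := by
      have h4 := hbase t ht
      have h5 := hee i
      unfold dd
      linarith
    refine ⟨?_, ?_, cong_dd (hs i) (hs2 i) (by positivity) h3 hp⟩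
    · have := hG i (mem_range.2 hi)
      rw [← h3] at this
      exact Int.squarefree_natCast.1 this
    · have h4 := ee_mod (k := k) (hs i) (hs2 i) (hsr i)
      have h5 : dd k s i t = ee k s i + 8 * ((V k * t) + 48 * (V k * t) ^ 2 +
          1024 * (V k * t) ^ 3 + 8192 * (V k * t) ^ 4) := by
        unfold dd qq
        ring
      have h6 : (((qq k t - (Y : ℤ) ^ 4).toNat + h i : ℕ) : ℤ) % 8 = r i % 8 := by
        rw [h3, h5, Int.add_mul_emod_self_left, h4]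
      have h7 : r i < 8 := by rcases hr i with h | h | h | h | h | h <;> omega
      have h8 : ((qq k t - (Y : ℤ) ^ 4).toNat + h i) % 8 = r i % 8 := by exact_mod_cast h6
      rw [h8]
      exact Nat.mod_eq_of_lt h7
  · filter_upwards [htup] with T hT
    refine hT.trans ?_
    rw [Nat.cast_le]
    convert toNat_count T Y (fun t => ∀ i ∈ range k, Squarefree (dd k s i t))

end Pool.Agent.Run7.h681.CQ
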