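import Pool.Agent.Run7.h681.CongPairs

set_option autoImplicit false

/-!
# Pairs of congruent numbers at distance seven: the count
-/

namespace Pool.Agent.Run7.h681.CP

open Finset Filter
open Pool.Agent.TH4.CT
open scoped Classical

/-- the four factors, `k = 4 t + j` -/
def fac (j : ℤ) : Fin 4 → ℤ → ℤ
  | 0, t => 8 * t + (2 * j + 3)
  | 1, t => 16 * t ^ 2 + (8 * j) * t + (j ^ 2 - 2)
  | 2, t => 8 * t + (2 * j - 1)
  | 3, t => 16 * t ^ 2 + (8 * j + 8) * t + (j ^ 2 + 2 * j - 1)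

/-- the two numbers -/
def val (j : ℤ) : Fin 2 → ℤ → ℤ
  | 0, t => fac j 0 t * fac j 1 t
  | 1, t => fac j 2 t * fac j 3 t

lemma val_diff (j t : ℤ) : val j 1 t = val j 0 t + 7 := by
  simp only [val, fac]; ring

lemma not_dvd_two_pow {p : ℕ} (hp : p.Prime) (h2 : 2 < p) (e : ℕ) : ¬ (p : ℤ) ∣ 2 ^ e := by
  intro h
  have h1 : (p : ℤ) ∣ 2 := (Nat.prime_iff_prime_int.1 hp).dvd_of_dvd_pow h
  have := Int.le_of_dvd (by norm_num) h1
  omega

lemma fac_roots (j : ℤ) {p : ℕ} (hp : p.Prime) (h2 : 2 < p) (i : Fin 4) :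
    TwoRoots p (fac j i) := by
  have h8 : ¬ (p : ℤ) ∣ 8 := by have := not_dvd_two_pow hp h2 3; norm_num at this; exact this
  have h16 : ¬ (p : ℤ) ∣ 16 := by have := not_dvd_two_pow hp h2 4; norm_num at this; exact this
  have h128 : ¬ (p : ℤ) ∣ 128 := by have := not_dvd_two_pow hp h2 7; norm_num at this; exact this
  fin_cases i
  · exact twoRoots_linear hp 8 (2 * j + 3) h8
  · refine twoRoots_quadratic hp 16 (8 * j) (j ^ 2 - 2) h16 ?_
    have : (8 * j) ^ 2 - 4 * 16 * (j ^ 2 - 2) = 128 := by ring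
    rw [this]; exact h128
  · exact twoRoots_linear hp 8 (2 * j - 1) h8
  · refine twoRoots_quadratic hp 16 (8 * j + 8) (j ^ 2 + 2 * j - 1) h16 ?_
    have : (8 * j + 8) ^ 2 - 4 * 16 * (j ^ 2 + 2 * j - 1) = 128 := by ring
    rw [this]; exact h128

lemma fac_size (j : ℤ) (hj1 : 2 ≤ j) (hj2 : j ≤ 3) (i : Fin 4) (t : ℤ) (ht : (0 : ℤ) < t) :
    fac j i t ≠ 0 ∧ |fac j i t| ≤ (((10 : ℕ) : ℤ) * t) ^ 2 := by
  have hj : j = 2 ∨ j = 3 := by omega
  have key : 0 < fac j i t ∧ fac j i t ≤ (((10 : ℕ) : ℤ) * t) ^ 2 := by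
    fin_cases i <;> simp only [fac] <;> push_cast <;> rcases hj with rfl | rfl <;>
      constructor <;> nlinarith
  refine ⟨key.1.ne', ?_⟩
  rw [abs_of_pos key.1]
  exact key.2

lemma val_fac (j : ℤ) {p : ℕ} (hp : p.Prime) (i : Fin 2) (t : ℤ) (h : (p : ℤ) ^ 2 ∣ val j i t) :
    ∃ l : Fin 4, (p : ℤ) ^ 2 ∣ fac j l t := by
  have h1 : ¬ (p : ℤ) ∣ 1 := by
    intro h1
    exact hp.one_lt.ne' (by exact_mod_cast Int.eq_one_of_dvd_one (by positivity) h1)
  fin_cases i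
  · rcases sq_dvd_or hp (a := fac j 0 t) (b := fac j 1 t) (by
      rintro ⟨ha, hb⟩
      apply h1
      have e : (1 : ℤ) = 4 * fac j 1 t - (8 * t + 2 * j - 3) * fac j 0 t := by
        simp only [fac]; ring
      rw [e]
      exact dvd_sub (hb.mul_left _) (ha.mul_left _)) h with h2 | h2
    · exact ⟨0, h2⟩
    · exact ⟨1, h2⟩
  · rcases sq_dvd_or hp (a := fac j 2 t) (b := fac j 3 t) (by
      rintro ⟨ha, hb⟩
      apply h1
      have e : (1 : ℤ) = 4 * fac j 3 t - (8 * t + 2 * j + 5) * fac j 2 t := by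
        simp only [fac]; ring
      rw [e]
      exact dvd_sub (hb.mul_left _) (ha.mul_left _)) h with h2 | h2
    · exact ⟨2, h2⟩
    · exact ⟨3, h2⟩

lemma val_per (j : ℤ) (i : Fin 2) (n t t' : ℤ) (h : n ∣ t - t') : n ∣ val j i t - val j i t' := by
  have h1 : t' ≡ t [ZMOD n] := Int.modEq_iff_dvd.2 h
  apply Int.modEq_iff_dvd.1
  fin_cases i <;> simp only [val, fac] <;> gcongr

lemma not_sq_dvd {p : ℕ} (hp : p.Prime) {n : ℕ} (hn : Squarefree n) {z : ℤ} (hz : z = n) :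
    ¬ (p : ℤ) ^ 2 ∣ z := by
  intro h
  rw [hz] at h
  have h1 : p * p ∣ n := by
    rw [← pow_two]; exact_mod_cast h
  exact hp.one_lt.ne' (Nat.isUnit_iff.1 (hn p h1))

lemma local_two (p : ℕ) (hp : p.Prime) : ∃ t : ℕ, ∀ i ∈ (univ : Finset (Fin 2)),
    ¬ (p : ℤ) ^ 2 ∣ val 2 i t := by
  refine ⟨0, fun i _ => ?_⟩
  fin_cases i
  · exact not_sq_dvd hp (n := 14) (by decide +kernel) (by simp [val, fac])
  · exact not_sq_dvd hp (n := 21) (by decide +kernel) (by simp [val, fac])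

lemma local_three (p : ℕ) (hp : p.Prime) : ∃ t : ℕ, ∀ i ∈ (univ : Finset (Fin 2)),
    ¬ (p : ℤ) ^ 2 ∣ val 3 i t := by
  refine ⟨1, fun i _ => ?_⟩
  fin_cases i
  · exact not_sq_dvd hp (n := 799) (by decide +kernel) (by norm_num [val, fac])
  · exact not_sq_dvd hp (n := 806) (by decide +kernel) (by norm_num [val, fac])

/-- the squarefree pairs, a positive proportion -/
lemma pairs (j : ℤ) (hj : j = 2 ∨ j = 3) :
    ∃ c : ℝ, 0 < c ∧ ∀ᶠ T : ℕ in atTop, c * T ≤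
      (((Ioc (0 : ℤ) T).filter (fun t : ℤ => ((0 : ℕ) : ℤ) < t ∧
        ∀ i ∈ (univ : Finset (Fin 2)), Squarefree (val j i t))).card : ℝ) := by
  have hs := sieve (univ : Finset (Fin 4)) (fac j) (univ : Finset (Fin 2)) (val j) 2 10 0
    ?_ ?_ ?_ ?_ ?_
  · obtain ⟨c, hc, h⟩ := hs
    refine ⟨c, hc, ?_⟩
    filter_upwards [h] with T hT
    convert hT
  · intro p hp h2 i _
    exact fac_roots j hp h2 i
  · intro i _ t ht
    exact fac_size j (by omega) (by omega) i t (by simpa using ht)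
  · intro p hp _ i _ t h
    obtain ⟨l, hl⟩ := val_fac j hp i t h
    exact ⟨l, mem_univ _, hl⟩
  · intro i _ n t t' h
    exact val_per j i n t t' h
  · intro p hp
    rcases hj with rfl | rfl
    · exact local_two p hp
    · exact local_three p hp

/-- `n` is congruent -/
lemma cong_zero {n : ℕ} {k : ℤ} (hk : 2 ≤ k) (hn : (n : ℤ) = (2 * k + 3) * (k ^ 2 - 2)) :
    Cong n := by
  have hn0 : (0 : ℤ) < n := by
    rw [hn]
    apply mul_pos <;> nlinarith
  apply cong_of (R := 4 * n + 4 * (2 * k + 3) ^ 2) (S := 4 * (2 * k + 3) ^ 2)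
    (m := 4 * (2 * k + 3) ^ 2 * ((2 * k + 3) ^ 2 - 1))
  · have : (0 : ℤ) < 2 * k + 3 := by omega
    positivity
  · linarith
  · have h1 : (0 : ℤ) < 2 * k + 3 := by omega
    have h2 : (0 : ℤ) < (2 * k + 3) ^ 2 - 1 := by nlinarith
    positivity
  · rw [hn]; ring

/-- `n + 7` is congruent -/
lemma cong_one {n : ℕ} {k : ℤ} (hk : 2 ≤ k)
    (hn : (n : ℤ) = (2 * k - 1) * (k ^ 2 + 2 * k - 1)) : Cong n := by
  have h1 : (0 : ℤ) < 2 * k - 1 := by omega
  have h3 : (n : ℤ) - 2 * (2 * k - 1) ^ 2 = (2 * k - 1) * (k - 1) ^ 2 := by rw [hn]; ring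
  have h4 : (0 : ℤ) < (2 * k - 1) * (k - 1) ^ 2 := by
    have : (0 : ℤ) < k - 1 := by omega
    positivity
  apply cong_of (R := 4 * n - 4 * (2 * k - 1) ^ 2) (S := 4 * (2 * k - 1) ^ 2)
    (m := 4 * (2 * k - 1) ^ 2 * ((2 * k - 1) ^ 2 - 1))
  · positivity
  · linarith
  · have h2 : (0 : ℤ) < (2 * k - 1) ^ 2 - 1 := by nlinarith
    positivity
  · rw [hn]; ring

/-- the property -/
def Good (r n : ℕ) : Prop :=
  n % 8 = r ∧ Squarefree n ∧ Squarefree (n + 7) ∧ Cong n ∧ Cong (n + 7)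

lemma good_val (j : ℤ) (r : ℕ) (hjr : j = 2 ∧ r = 6 ∨ j = 3 ∧ r = 7) (t : ℕ) (ht : 0 < t)
    (h : ∀ i ∈ (univ : Finset (Fin 2)), Squarefree (val j i t)) : Good r (val j 0 t).toNat := by
  have hj2 : 2 ≤ j := by omega
  have e0 : val j 0 t = (2 * (4 * t + j) + 3) * ((4 * t + j) ^ 2 - 2) := by
    simp only [val, fac]; ring
  have e1 : val j 1 t = (2 * (4 * t + j) - 1) * ((4 * t + j) ^ 2 + 2 * (4 * t + j) - 1) := by
    simp only [val, fac]; ring
  have hk : (2 : ℤ) ≤ 4 * t + j := by omega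
  have hpos : 0 < val j 0 t := by
    rw [e0]
    apply mul_pos <;> nlinarith
  have hc : (((val j 0 t).toNat : ℕ) : ℤ) = val j 0 t := Int.toNat_of_nonneg hpos.le
  have hc1 : (((val j 0 t).toNat + 7 : ℕ) : ℤ) = val j 1 t := by
    push_cast
    rw [hc, val_diff]
  refine ⟨?_, ?_, ?_, cong_zero hk (hc.trans e0), cong_one hk (hc1.trans e1)⟩
  · have hm : val j 0 t % 8 = r := by
      rcases hjr with ⟨rfl, rfl⟩ | ⟨rfl, rfl⟩
      · have : val 2 0 t = 8 * (16 * t ^ 3 + 30 * t ^ 2 + 16 * t + 1) + 6 := by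
          rw [e0]; ring
        rw [this]; omega
      · have : val 3 0 t = 8 * (16 * t ^ 3 + 42 * t ^ 2 + 34 * t + 7) + 7 := by
          rw [e0]; ring
        rw [this]; omega
    rw [← hc] at hm
    exact_mod_cast hm
  · have := h 0 (mem_univ _)
    rw [← hc] at this
    exact Int.squarefree_natCast.1 this
  · have := h 1 (mem_univ _)
    rw [← hc1] at this
    exact Int.squarefree_natCast.1 this

theorem main (r : ℕ) (hr : r = 6 ∨ r = 7) : ∃ c : ℝ, 0 < c ∧ ∀ᶠ X : ℕ in atTop,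
    c * (X : ℝ) ^ (1 / ((3 : ℕ) : ℝ)) ≤ (((Icc 1 X).filter (Good r)).card : ℝ) := by
  obtain ⟨j, hjr⟩ : ∃ j : ℤ, j = 2 ∧ r = 6 ∨ j = 3 ∧ r = 7 := by
    rcases hr with rfl | rfl
    · exact ⟨2, by simp⟩
    · exact ⟨3, by simp⟩
  have hj : j = 2 ∨ j = 3 := by omega
  have e0 : ∀ t : ℤ, val j 0 t = (2 * (4 * t + j) + 3) * ((4 * t + j) ^ 2 - 2) := by
    intro t
    simp only [val, fac]; ring
  have hpos : ∀ t : ℕ, 0 < val j 0 t := by
    intro t
    rw [e0]
    have hk : (2 : ℤ) ≤ 4 * t + j := by omega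
    apply mul_pos <;> nlinarith
  have hmono : ∀ t t' : ℕ, t < t' → val j 0 t < val j 0 t' := by
    intro t t' h
    rw [e0, e0]
    have h1 : (t : ℤ) < t' := by exact_mod_cast h
    have hk : (2 : ℤ) ≤ 4 * t + j := by omega
    have hk' : (4 : ℤ) * t + j < 4 * t' + j := by omega
    apply mul_lt_mul'' (by omega) (by nlinarith) (by omega) (by nlinarith)
  obtain ⟨c, hc, h⟩ := pairs j hj
  refine transfer 1000 3 0 (by norm_num) (by norm_num) (fun t => (val j 0 t).toNat)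
    (fun t => ∀ i ∈ (univ : Finset (Fin 2)), Squarefree (val j i t)) (Good r) ?_ ?_ ?_ ?_ hc ?_
  · intro t _
    have := hpos t
    show 0 < (val j 0 t).toNat
    omega
  · intro t ht
    have h1 : val j 0 t ≤ 1000 * (t : ℤ) ^ 3 := by
      rw [e0]
      have h1 : (1 : ℤ) ≤ t := by exact_mod_cast ht
      have h2 : (4 : ℤ) * t + j ≤ 7 * t := by omega
      have h3 : (2 : ℤ) ≤ 4 * t + j := by omega
      calc (2 * (4 * t + j) + 3) * ((4 * t + j) ^ 2 - 2) ≤ (17 * t) * (7 * t) ^ 2 := by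
            apply mul_le_mul (by omega) (by nlinarith) (by nlinarith) (by omega)
        _ ≤ _ := by nlinarith [pow_pos (show (0 : ℤ) < t by omega) 3]
    show (val j 0 t).toNat ≤ 1000 * t ^ 3
    have h2 : (((val j 0 t).toNat : ℕ) : ℤ) = val j 0 t := Int.toNat_of_nonneg (hpos t).le
    have h3 : (((val j 0 t).toNat : ℕ) : ℤ) ≤ ((1000 * t ^ 3 : ℕ) : ℤ) := by
      rw [h2]; push_cast; exact h1
    exact_mod_cast h3
  · intro t t' _ _ heq
    have heq' : val j 0 t = val j 0 t' := by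
      have h2 : (((val j 0 t).toNat : ℕ) : ℤ) = val j 0 t := Int.toNat_of_nonneg (hpos t).le
      have h3 : (((val j 0 t').toNat : ℕ) : ℤ) = val j 0 t' := Int.toNat_of_nonneg (hpos t').le
      rw [← h2, ← h3]
      exact_mod_cast heq
    rcases lt_trichotomy t t' with h1 | h1 | h1
    · exact absurd heq' (hmono _ _ h1).ne
    · exact h1
    · exact absurd heq' (hmono _ _ h1).ne'
  · intro t ht hG
    exact good_val j r hjr t ht hG
  · filter_upwards [h] with T hT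
    refine hT.trans ?_
    rw [Nat.cast_le]
    convert toNat_count T 0 (fun t => ∀ i ∈ (univ : Finset (Fin 2)), Squarefree (val j i t))

end Pool.Agent.Run7.h681.CP
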