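import Mathlib

set_option autoImplicit false

/-!
A variance bound for functions on `Ω ^ D` which are Lipschitz for the Hamming distance, and the
resulting bound for the distance between two dense sets.
-/

open Finset

namespace Pool.Agent.Run7.h681.Bad

variable {Ω : Type*} [Fintype Ω] [DecidableEq Ω]

lemma ham_sum {D : ℕ} (x y : Fin D → Ω) :
    hammingDist x y = ∑ i, if x i ≠ y i then 1 else 0 := by
  unfold hammingDist
  rw [Finset.card_filter]

lemma ham_cons {D : ℕ} (ω ω' : Ω) (x y : Fin D → Ω) :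
    hammingDist (Fin.cons ω x : Fin (D + 1) → Ω) (Fin.cons ω' y) =
      (if ω ≠ ω' then 1 else 0) + hammingDist x y := by
  rw [ham_sum, Fin.sum_univ_succ, ham_sum]
  simp only [Fin.cons_zero, Fin.cons_succ]

lemma sum_cons {D : ℕ} (f : (Fin (D + 1) → Ω) → ℝ) :
    ∑ x, f x = ∑ ω : Ω, ∑ x : Fin D → Ω, f (Fin.cons ω x) := by
  rw [← Fintype.sum_prod_type']
  exact (Equiv.sum_comp (Fin.consEquiv (fun _ : Fin (D + 1) => Ω)) f).symm

lemma sq_sum_diff (S : Ω → ℝ) {b : ℝ} (hb : ∀ ω ω', |S ω - S ω'| ≤ b) :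
    (Fintype.card Ω : ℝ) * ∑ ω, S ω ^ 2 - (∑ ω, S ω) ^ 2 ≤ (Fintype.card Ω : ℝ) ^ 2 * b ^ 2 := by
  have h1 : ∑ ω, ∑ ω', (S ω - S ω') ^ 2 =
      2 * ((Fintype.card Ω : ℝ) * ∑ ω, S ω ^ 2 - (∑ ω, S ω) ^ 2) := by
    have : ∀ ω ω', (S ω - S ω') ^ 2 = S ω ^ 2 + S ω' ^ 2 - 2 * (S ω * S ω') := by
      intros; ring
    simp only [this, Finset.sum_sub_distrib, Finset.sum_add_distrib, Finset.sum_const,
      Finset.card_univ, nsmul_eq_mul, ← Finset.mul_sum, ← Finset.sum_mul]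
    ring
  have h2 : ∑ ω, ∑ ω', (S ω - S ω') ^ 2 ≤ ∑ ω : Ω, ∑ ω' : Ω, b ^ 2 := by
    refine Finset.sum_le_sum fun ω _ => Finset.sum_le_sum fun ω' _ => ?_
    exact sq_le_sq' (by have := hb ω ω'; rw [abs_le] at this; linarith [this.1])
      (le_trans (le_abs_self _) (hb ω ω'))
  have h3 : ∑ ω : Ω, ∑ ω' : Ω, b ^ 2 = (Fintype.card Ω : ℝ) ^ 2 * b ^ 2 := by
    simp only [Finset.sum_const, Finset.card_univ, nsmul_eq_mul]
    ring
  have h4 : (0 : ℝ) ≤ (Fintype.card Ω : ℝ) ^ 2 * b ^ 2 := by positivity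
  linarith

/-- Efron–Stein type bound (unnormalised). -/
lemma var_le (D : ℕ) : ∀ f : (Fin D → Ω) → ℝ,
    (∀ x y, |f x - f y| ≤ hammingDist x y) →
    (Fintype.card Ω : ℝ) ^ D * ∑ x, f x ^ 2 - (∑ x, f x) ^ 2 ≤
      D * ((Fintype.card Ω : ℝ) ^ D) ^ 2 := by
  induction D with
  | zero =>
    intro f hf
    rw [Fintype.sum_unique, Fintype.sum_unique]
    simp
  | succ D ih =>
    intro f hf
    set n : ℝ := (Fintype.card Ω : ℝ) with hn
    have hn0 : 0 ≤ n := by positivity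
    rw [sum_cons f, sum_cons (fun x => f x ^ 2)]
    have h1 : ∀ ω : Ω, n ^ D * ∑ x : Fin D → Ω, f (Fin.cons ω x) ^ 2 ≤
        (∑ x : Fin D → Ω, f (Fin.cons ω x)) ^ 2 + D * (n ^ D) ^ 2 := by
      intro ω
      have := ih (fun x => f (Fin.cons ω x)) (fun x y => by
        refine (hf _ _).trans ?_
        rw [ham_cons]
        simp)
      linarith
    have h2 : n ^ D * ∑ ω : Ω, ∑ x : Fin D → Ω, f (Fin.cons ω x) ^ 2 ≤
        ∑ ω : Ω, (∑ x : Fin D → Ω, f (Fin.cons ω x)) ^ 2 + n * (D * (n ^ D) ^ 2) := by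
      rw [Finset.mul_sum]
      refine (Finset.sum_le_sum fun ω _ => h1 ω).trans (le_of_eq ?_)
      rw [Finset.sum_add_distrib, Finset.sum_const, Finset.card_univ, nsmul_eq_mul]
    have h3 := sq_sum_diff (fun ω : Ω => ∑ x : Fin D → Ω, f (Fin.cons ω x)) (b := n ^ D) (by
      intro ω ω'
      rw [← Finset.sum_sub_distrib]
      refine (Finset.abs_sum_le_sum_abs _ _).trans ?_
      have : ∑ x : Fin D → Ω, |f (Fin.cons ω x) - f (Fin.cons ω' x)| ≤
          ∑ x : Fin D → Ω, (1 : ℝ) := by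
        refine Finset.sum_le_sum fun x _ => ?_
        refine (hf _ _).trans ?_
        rw [ham_cons, hammingDist_self]
        split_ifs <;> norm_num
      refine this.trans (le_of_eq ?_)
      rw [Finset.sum_const, Finset.card_univ, Fintype.card_fun, Fintype.card_fin, nsmul_eq_mul,
        mul_one, hn]
      push_cast
      rfl)
    have h4 := mul_le_mul_of_nonneg_left h2 hn0
    have h5 : n ^ (D + 1) * ∑ ω : Ω, ∑ x : Fin D → Ω, f (Fin.cons ω x) ^ 2 =
        n * (n ^ D * ∑ ω : Ω, ∑ x : Fin D → Ω, f (Fin.cons ω x) ^ 2) := by ring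
    have h6 : ((D + 1 : ℕ) : ℝ) * (n ^ (D + 1)) ^ 2 =
        n ^ 2 * (n ^ D) ^ 2 + n * (n * (D * (n ^ D) ^ 2)) := by
      push_cast
      ring
    rw [h5, h6]
    rw [← hn] at h3
    linarith

/-- Chebyshev (unnormalised): with the mean `m`, the sum of `(f - m)²` over any set of points. -/
lemma cheb {D : ℕ} [Nonempty Ω] (f : (Fin D → Ω) → ℝ)
    (hf : ∀ x y, |f x - f y| ≤ hammingDist x y) (m : ℝ)
    (hm : ∑ x, f x = (Fintype.card Ω : ℝ) ^ D * m) (s : Finset (Fin D → Ω)) :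
    ∑ x ∈ s, (f x - m) ^ 2 ≤ D * (Fintype.card Ω : ℝ) ^ D := by
  have hn0 : (0 : ℝ) < (Fintype.card Ω : ℝ) ^ D := by
    have : 0 < Fintype.card Ω := Fintype.card_pos
    positivity
  have h1 : ∑ x ∈ s, (f x - m) ^ 2 ≤ ∑ x, (f x - m) ^ 2 :=
    Finset.sum_le_univ_sum_of_nonneg (fun x => sq_nonneg _)
  have h2 : ∑ x, (f x - m) ^ 2 = ∑ x, f x ^ 2 - (Fintype.card Ω : ℝ) ^ D * m ^ 2 := by
    have : ∀ x, (f x - m) ^ 2 = f x ^ 2 - 2 * m * f x + m ^ 2 := by intro x; ring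
    simp only [this, Finset.sum_add_distrib, Finset.sum_sub_distrib, ← Finset.mul_sum, hm,
      Finset.sum_const, Finset.card_univ, Fintype.card_fun, Fintype.card_fin, nsmul_eq_mul]
    push_cast
    ring
  have h3 := var_le D f hf
  rw [hm] at h3
  have h4 : (Fintype.card Ω : ℝ) ^ D * (∑ x, (f x - m) ^ 2) ≤
      (Fintype.card Ω : ℝ) ^ D * (D * (Fintype.card Ω : ℝ) ^ D) := by
    rw [h2]
    nlinarith
  exact h1.trans (le_of_mul_le_mul_left h4 hn0)

/-- Two sets of density at least `α` have points at Hamming distance at most `2 √(D / α)`. -/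
lemma close_pair {D : ℕ} [Nonempty Ω] {α : ℝ} (hα : 0 < α) (A B : Finset (Fin D → Ω))
    (hA : α * (Fintype.card Ω : ℝ) ^ D ≤ A.card) (hB : α * (Fintype.card Ω : ℝ) ^ D ≤ B.card) :
    ∃ a ∈ A, ∃ b ∈ B, (hammingDist b a : ℝ) ≤ 2 * √(D / α) := by
  have hn0 : (0 : ℝ) < (Fintype.card Ω : ℝ) ^ D := by
    have : 0 < Fintype.card Ω := Fintype.card_pos
    positivity
  have hAc : (0 : ℝ) < A.card := lt_of_lt_of_le (mul_pos hα hn0) hA
  have hAne : A.Nonempty := by
    rw [← Finset.card_pos]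
    exact_mod_cast hAc
  set f : (Fin D → Ω) → ℕ := fun x => A.inf' hAne (fun a => hammingDist x a) with hf
  have hLip : ∀ x y, (f x : ℝ) ≤ f y + hammingDist x y := by
    intro x y
    obtain ⟨a, ha, hfa⟩ := Finset.exists_mem_eq_inf' hAne (fun a => hammingDist y a)
    have h1 : f x ≤ hammingDist x a := Finset.inf'_le _ ha
    have h2 : f y = hammingDist y a := hfa
    have h3 : hammingDist x a ≤ hammingDist x y + hammingDist y a := hammingDist_triangle _ _ _
    have : f x ≤ f y + hammingDist x y := by omega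
    exact_mod_cast this
  have hLip' : ∀ x y, |(f x : ℝ) - f y| ≤ hammingDist x y := by
    intro x y
    rw [abs_le]
    have h1 := hLip x y
    have h2 := hLip y x
    rw [hammingDist_comm y x] at h2
    constructor <;> linarith
  set m : ℝ := (∑ x, (f x : ℝ)) / (Fintype.card Ω : ℝ) ^ D with hm
  have hm' : ∑ x, (f x : ℝ) = (Fintype.card Ω : ℝ) ^ D * m := by
    rw [hm]; field_simp
  have hfA : ∀ a ∈ A, f a = 0 := by
    intro a ha
    have : f a ≤ hammingDist a a := Finset.inf'_le _ ha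
    rw [hammingDist_self] at this
    omega
  have hc1 := cheb (fun x => (f x : ℝ)) hLip' m hm' A
  have h1 : ∑ x ∈ A, ((f x : ℝ) - m) ^ 2 = A.card * m ^ 2 := by
    rw [Finset.sum_congr rfl (fun a ha => by rw [hfA a ha]), Finset.sum_const, nsmul_eq_mul]
    push_cast
    ring
  rw [h1] at hc1
  have hDα : (0 : ℝ) ≤ D / α := by positivity
  have key : ∀ t : ℝ, ∀ s : ℝ, α * (Fintype.card Ω : ℝ) ^ D ≤ s →
      s * t ^ 2 ≤ D * (Fintype.card Ω : ℝ) ^ D → t ≤ √(D / α) := by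
    intro t s hs ht
    apply Real.le_sqrt_of_sq_le
    rw [le_div_iff₀ hα]
    have h5 : α * (Fintype.card Ω : ℝ) ^ D * t ^ 2 ≤ D * (Fintype.card Ω : ℝ) ^ D :=
      (mul_le_mul_of_nonneg_right hs (sq_nonneg t)).trans ht
    have h6 : (t ^ 2 * α) * (Fintype.card Ω : ℝ) ^ D ≤ D * (Fintype.card Ω : ℝ) ^ D := by
      linarith
    exact le_of_mul_le_mul_right h6 hn0
  have hm1 : m ≤ √(D / α) := key m _ hA hc1
  -- the second set
  have hBc : (0 : ℝ) < B.card := lt_of_lt_of_le (mul_pos hα hn0) hB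
  have hBne : B.Nonempty := by
    rw [← Finset.card_pos]
    exact_mod_cast hBc
  by_contra hcon
  push_neg at hcon
  have hfB : ∀ b ∈ B, 2 * √(D / α) < f b := by
    intro b hb
    obtain ⟨a, ha, hfa⟩ := Finset.exists_mem_eq_inf' hAne (fun a => hammingDist b a)
    have h2 : f b = hammingDist b a := hfa
    rw [h2]
    exact hcon a ha b hb
  obtain ⟨b0, hb0, hmin⟩ := Finset.exists_min_image B f hBne
  have hr := hfB b0 hb0
  have hc2 := cheb (fun x => (f x : ℝ)) hLip' m hm' B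
  have h2 : (B.card : ℝ) * ((f b0 : ℝ) - m) ^ 2 ≤ ∑ x ∈ B, ((f x : ℝ) - m) ^ 2 := by
    rw [← nsmul_eq_mul, ← Finset.sum_const]
    refine Finset.sum_le_sum fun b hb => ?_
    have h3 : (f b0 : ℝ) ≤ f b := by exact_mod_cast hmin b hb
    have h4 : 0 ≤ (f b0 : ℝ) - m := by
      have := Real.sqrt_nonneg (D / α : ℝ)
      linarith
    exact pow_le_pow_left₀ h4 (by linarith) 2
  have hr2 := key _ _ hB (h2.trans hc2)
  linarith

end Pool.Agent.Run7.h681.Bad
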