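import Pool.Agent.Run7.h681.BadConc

set_option autoImplicit false

/-!
Counting in boxes of `ℤ ^ D`: in every dense subset of the box there are three points
`x, x + v, x + v'` with `|v|², |v'|² ≤ D / 2 + O(√D)` and `|v - v'|² ≥ 2 D - O(√D)`.
-/

open Finset

namespace Pool.Agent.Run7.h681.Bad

/-- The point of `{0, 1} ^ D` with the given coordinates. -/
def e {D : ℕ} (a : Fin D → Bool) : Fin D → ℤ := fun l => if a l then 1 else 0

/-- The difference of the two points given by `w`. -/
def dv {D : ℕ} (w : Fin D → Bool × Bool) : Fin D → ℤ :=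
  fun l => (if (w l).2 then 1 else 0) - (if (w l).1 then 1 else 0)

/-- The box. -/
noncomputable def bx (D N : ℕ) : Finset (Fin D → ℤ) := Fintype.piFinset (fun _ => Finset.Ico (0 : ℤ) N)

/-- The slightly larger box. -/
noncomputable def by' (D N : ℕ) : Finset (Fin D → ℤ) := Fintype.piFinset (fun _ => Finset.Ico (-1 : ℤ) N)

lemma card_bx (D N : ℕ) : (bx D N).card = N ^ D := by
  simp [bx, Fintype.card_piFinset]

lemma card_by (D N : ℕ) : (by' D N).card = (N + 1) ^ D := by
  simp only [by', Fintype.card_piFinset, Int.card_Ico, Finset.prod_const, Finset.card_univ,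
    Fintype.card_fin]
  congr 1

lemma shift {D N : ℕ} (I : Finset (Fin D → ℤ)) (hI : I ⊆ bx D N) (a : Fin D → Bool)
    (Q : (Fin D → ℤ) → Prop) [DecidablePred Q] :
    ((by' D N).filter fun y => y + e a ∈ I ∧ Q (y + e a)).card = (I.filter Q).card := by
  refine Finset.card_bij' (fun y _ => y + e a) (fun x _ => x - e a) ?_ ?_ ?_ ?_
  · intro y hy
    rw [Finset.mem_filter] at hy ⊢
    exact hy.2
  · intro x hx
    rw [Finset.mem_filter] at hx
    rw [Finset.mem_filter, sub_add_cancel]
    refine ⟨?_, hx⟩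
    have h := hI hx.1
    rw [bx, Fintype.mem_piFinset] at h
    rw [by', Fintype.mem_piFinset]
    intro l
    have := h l
    rw [Finset.mem_Ico] at this ⊢
    simp only [Pi.sub_apply, e]
    split_ifs <;> omega
  · intro y _
    simp
  · intro x _
    simp

lemma count {D N : ℕ} (I : Finset (Fin D → ℤ)) (hI : I ⊆ bx D N) (hne : I.Nonempty) :
    ∃ x ∈ I, 4 ^ D * I.card ≤ (N + 1) ^ D *
      (univ.filter fun w : Fin D → Bool × Bool => x + dv w ∈ I).card := by
  classical
  by_contra hcon
  push Not at hcon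
  set g : (Fin D → ℤ) → ℕ := fun y => (univ.filter fun a : Fin D → Bool => y + e a ∈ I).card
    with hg
  have S1 : ∑ y ∈ by' D N, g y = 2 ^ D * I.card := by
    have h1 : ∀ y, g y = ∑ a : Fin D → Bool, if y + e a ∈ I then 1 else 0 := by
      intro y; simp only [hg, Finset.card_filter]
    simp only [h1]
    rw [Finset.sum_comm]
    have h2 : ∀ a : Fin D → Bool, ∑ y ∈ by' D N, (if y + e a ∈ I then 1 else 0) = I.card := by
      intro a
      rw [← Finset.card_filter]
      have := shift I hI a (fun _ => True)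
      simpa using this
    simp only [h2, Finset.sum_const, Finset.card_univ, Fintype.card_fun, Fintype.card_bool,
      Fintype.card_fin, smul_eq_mul]
  have S2 : ∑ y ∈ by' D N, g y ^ 2 =
      ∑ x ∈ I, (univ.filter fun w : Fin D → Bool × Bool => x + dv w ∈ I).card := by
    have h1 : ∀ y, g y ^ 2 = ∑ w : Fin D → Bool × Bool,
        if (y + e (fun l => (w l).1) ∈ I ∧ y + e (fun l => (w l).2) ∈ I) then 1 else 0 := by
      intro y
      rw [sq]
      simp only [hg, Finset.card_filter]
      rw [Finset.sum_mul_sum, ← Fintype.sum_prod_type']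
      rw [← Equiv.sum_comp (Equiv.arrowProdEquivProdArrow (Fin D) (fun _ => Bool) (fun _ => Bool))]
      refine Finset.sum_congr rfl fun w _ => ?_
      simp only [Equiv.arrowProdEquivProdArrow_apply]
      split_ifs <;> simp_all
    simp only [h1]
    rw [Finset.sum_comm]
    have h2 : ∀ w : Fin D → Bool × Bool, ∑ y ∈ by' D N,
        (if (y + e (fun l => (w l).1) ∈ I ∧ y + e (fun l => (w l).2) ∈ I) then 1 else 0) =
        ∑ x ∈ I, if x + dv w ∈ I then 1 else 0 := by
      intro w
      rw [← Finset.card_filter, ← Finset.card_filter]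
      have := shift I hI (fun l => (w l).1) (fun x => x + dv w ∈ I)
      rw [← this]
      congr 1
      refine Finset.filter_congr fun y _ => ?_
      have h3 : y + e (fun l => (w l).1) + dv w = y + e (fun l => (w l).2) := by
        funext l
        simp only [Pi.add_apply, e, dv]
        ring
      rw [h3]
    simp only [h2]
    rw [Finset.sum_comm]
    refine Finset.sum_congr rfl fun x _ => ?_
    rw [← Finset.card_filter]
  have CS : (∑ y ∈ by' D N, g y) ^ 2 ≤ (by' D N).card * ∑ y ∈ by' D N, g y ^ 2 :=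
    sq_sum_le_card_mul_sum_sq
  rw [S1, S2, card_by, Finset.mul_sum] at CS
  have h3 : ∑ x ∈ I, (N + 1) ^ D *
      (univ.filter fun w : Fin D → Bool × Bool => x + dv w ∈ I).card <
      ∑ x ∈ I, 4 ^ D * I.card := Finset.sum_lt_sum_of_nonempty hne hcon
  rw [Finset.sum_const, smul_eq_mul] at h3
  have h4 : (2 ^ D * I.card) ^ 2 = I.card * (4 ^ D * I.card) := by
    have : (4 : ℕ) ^ D = (2 ^ D) ^ 2 := by
      rw [← pow_mul, mul_comm D 2, pow_mul]; norm_num
    rw [this]; ring
  rw [h4] at CS
  exact absurd (CS.trans_lt h3) (lt_irrefl _)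

/-- The squared norm of the difference, as a real number. -/
noncomputable def hh {D : ℕ} (w : Fin D → Bool × Bool) : ℝ := ∑ l, ((dv w l : ℤ) : ℝ) ^ 2

lemma hh_lip {D : ℕ} (w w' : Fin D → Bool × Bool) : |hh w - hh w'| ≤ hammingDist w w' := by
  rw [ham_sum, hh, hh, ← Finset.sum_sub_distrib]
  push_cast
  refine (Finset.abs_sum_le_sum_abs _ _).trans (Finset.sum_le_sum fun l _ => ?_)
  simp only [dv]
  rcases h1 : w l with ⟨a, b⟩
  rcases h2 : w' l with ⟨a', b'⟩
  cases a <;> cases b <;> cases a' <;> cases b' <;> norm_num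

lemma hh_mean (D : ℕ) : ∑ w : Fin D → Bool × Bool, hh w =
    (Fintype.card (Bool × Bool) : ℝ) ^ D * (D / 2) := by
  let σ : (Fin D → Bool × Bool) ≃ (Fin D → Bool × Bool) :=
    { toFun := fun w l => (!(w l).1, (w l).2)
      invFun := fun w l => (!(w l).1, (w l).2)
      left_inv := fun w => by funext l; simp
      right_inv := fun w => by funext l; simp }
  have h1 : ∀ w, hh (σ w) = D - hh w := by
    intro w
    have : (D : ℝ) = ∑ l : Fin D, (1 : ℝ) := by simp
    rw [this, hh, hh, ← Finset.sum_sub_distrib]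
    refine Finset.sum_congr rfl fun l _ => ?_
    have key : ∀ p q : Bool, (((if q = true then (1 : ℤ) else 0) -
        (if (!p) = true then 1 else 0) : ℤ) : ℝ) ^ 2 = 1 - (((if q = true then (1 : ℤ) else 0) -
        (if p = true then 1 else 0) : ℤ) : ℝ) ^ 2 := by
      intro p q
      cases p <;> cases q <;> norm_num
    exact key (w l).1 (w l).2
  have h2 := Equiv.sum_comp σ (fun w => hh w)
  simp only [h1, Finset.sum_sub_distrib, Finset.sum_const, Finset.card_univ, nsmul_eq_mul] at h2
  have h3 : (Fintype.card (Fin D → Bool × Bool) : ℝ) = (Fintype.card (Bool × Bool) : ℝ) ^ D := by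
    rw [Fintype.card_fun, Fintype.card_fin]; push_cast; rfl
  rw [h3] at h2
  linarith

/-- swapping the two points -/
def sw {D : ℕ} (w : Fin D → Bool × Bool) : Fin D → Bool × Bool := fun l => ((w l).2, (w l).1)

lemma sw_inj {D : ℕ} : Function.Injective (sw (D := D)) := by
  intro w w' h
  funext l
  have := congrFun h l
  simp only [sw, Prod.mk.injEq] at this
  exact Prod.ext this.2 this.1

lemma dv_sw {D : ℕ} (w : Fin D → Bool × Bool) (l : Fin D) : dv (sw w) l = - dv w l := by
  have key : ∀ p q : Bool, ((if p = true then (1 : ℤ) else 0) - (if q = true then 1 else 0)) =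
      -((if q = true then (1 : ℤ) else 0) - (if p = true then 1 else 0)) := by
    intro p q
    cases p <;> cases q <;> norm_num
  exact key (w l).1 (w l).2

lemma near_anti {D : ℕ} (a b : Fin D → Bool × Bool) :
    4 * (hh a - hammingDist b a) ≤ ∑ l, (((dv a l : ℤ) : ℝ) + dv b l) ^ 2 := by
  rw [ham_sum, hh]
  push_cast
  rw [← Finset.sum_sub_distrib, Finset.mul_sum]
  refine Finset.sum_le_sum fun l _ => ?_
  simp only [dv]
  rcases h1 : a l with ⟨p, q⟩
  rcases h2 : b l with ⟨p', q'⟩
  cases p <;> cases q <;> cases p' <;> cases q' <;> norm_num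

/-- **The configuration.** -/
lemma config {D N : ℕ} (hD : 0 < D) {α : ℝ} (hα : 0 < α) (I : Finset (Fin D → ℤ))
    (hI : I ⊆ bx D N) (hd : 2 * α * ((N : ℝ) + 1) ^ D ≤ I.card) :
    ∃ x ∈ I, ∃ x1 ∈ I, ∃ x2 ∈ I,
      ∑ l, (((x1 l - x l : ℤ)) : ℝ) ^ 2 ≤ D / 2 + √(D / α) ∧
      ∑ l, (((x2 l - x l : ℤ)) : ℝ) ^ 2 ≤ D / 2 + √(D / α) ∧
      4 * (D / 2 - 3 * √(D / α)) ≤ ∑ l, (((x1 l - x2 l : ℤ)) : ℝ) ^ 2 := by
  classical
  have hN : (0 : ℝ) < ((N : ℝ) + 1) ^ D := by positivity
  have hne : I.Nonempty := by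
    rw [← Finset.card_pos]
    have : (0 : ℝ) < I.card := lt_of_lt_of_le (by positivity) hd
    exact_mod_cast this
  obtain ⟨x, hx, hcount⟩ := count I hI hne
  set W := univ.filter fun w : Fin D → Bool × Bool => x + dv w ∈ I with hW
  have h4 : (Fintype.card (Bool × Bool) : ℝ) = 4 := by
    simp only [Fintype.card_prod, Fintype.card_bool]; norm_num
  have hWc : 2 * α * 4 ^ D ≤ (W.card : ℝ) := by
    have h1 : ((4 : ℝ) ^ D * I.card) ≤ ((N : ℝ) + 1) ^ D * W.card := by exact_mod_cast hcount
    have h2 : (4 : ℝ) ^ D * (2 * α * ((N : ℝ) + 1) ^ D) ≤ 4 ^ D * I.card :=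
      mul_le_mul_of_nonneg_left hd (by positivity)
    have h3 : ((N : ℝ) + 1) ^ D * (2 * α * 4 ^ D) ≤ ((N : ℝ) + 1) ^ D * W.card := by linarith
    exact le_of_mul_le_mul_left h3 hN
  set u : ℝ := √(D / α) with hu
  have hDr : (0 : ℝ) < D := by exact_mod_cast hD
  have hu2 : u ^ 2 = D / α := Real.sq_sqrt (by positivity)
  have hu0 : 0 < u := Real.sqrt_pos.2 (by positivity)
  -- the bad pairs
  set E := univ.filter fun w : Fin D → Bool × Bool => u < |hh w - D / 2| with hE
  have hEc : (E.card : ℝ) ≤ α * 4 ^ D := by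
    have h1 := cheb (fun w : Fin D → Bool × Bool => hh w) hh_lip (D / 2) (hh_mean D) E
    rw [h4] at h1
    have h2 : (E.card : ℝ) * u ^ 2 ≤ ∑ w ∈ E, (hh w - D / 2) ^ 2 := by
      rw [← nsmul_eq_mul, ← Finset.sum_const]
      refine Finset.sum_le_sum fun w hw => ?_
      rw [hE, Finset.mem_filter] at hw
      rw [← sq_abs (hh w - D / 2)]
      exact pow_le_pow_left₀ hu0.le hw.2.le 2
    have h3 := h2.trans h1
    rw [hu2] at h3
    have h5 : (D : ℝ) * E.card ≤ D * (α * 4 ^ D) := by
      have h6 := mul_le_mul_of_nonneg_left h3 hα.le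
      have h7 : α * (E.card * (D / α)) = (D : ℝ) * E.card := by field_simp
      rw [h7] at h6
      linarith
    exact le_of_mul_le_mul_left h5 hDr
  set W' := W \ E with hW'
  have hW'c : α * (Fintype.card (Bool × Bool) : ℝ) ^ D ≤ (W'.card : ℝ) := by
    rw [h4]
    have h1 : W.card ≤ W'.card + E.card := by
      have := Finset.card_le_card_sdiff_add_card (s := W) (t := E)
      omega
    have h2 : (W.card : ℝ) ≤ W'.card + E.card := by exact_mod_cast h1
    linarith
  have hsc : α * (Fintype.card (Bool × Bool) : ℝ) ^ D ≤ ((W'.image sw).card : ℝ) := by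
    rw [Finset.card_image_of_injective _ sw_inj]
    exact hW'c
  obtain ⟨a, ha, b, hb, hab⟩ := close_pair hα W' (W'.image sw) hW'c hsc
  rw [← hu] at hab
  rw [Finset.mem_image] at hb
  obtain ⟨b', hb', rfl⟩ := hb
  have hmem : ∀ w ∈ W', x + dv w ∈ I ∧ hh w ≤ D / 2 + u ∧ D / 2 - u ≤ hh w := by
    intro w hw
    rw [hW', Finset.mem_sdiff, hW, hE, Finset.mem_filter, Finset.mem_filter] at hw
    obtain ⟨⟨_, h1⟩, h2⟩ := hw
    push Not at h2
    have h3 := abs_le.1 (h2 (Finset.mem_univ _))
    exact ⟨h1, by linarith [h3.2], by linarith [h3.1]⟩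
  obtain ⟨ha1, ha2, ha3⟩ := hmem a ha
  obtain ⟨hb1, hb2, hb3⟩ := hmem b' hb'
  refine ⟨x, hx, x + dv a, ha1, x + dv b', hb1, ?_, ?_, ?_⟩
  · have : ∀ l, (x + dv a) l - x l = dv a l := by intro l; simp
    simp only [this]
    exact ha2
  · have : ∀ l, (x + dv b') l - x l = dv b' l := by intro l; simp
    simp only [this]
    exact hb2
  · have : ∀ l, (((x + dv a) l - (x + dv b') l : ℤ) : ℝ) =
        ((dv a l : ℤ) : ℝ) + dv (sw b') l := by
      intro l
      rw [dv_sw]
      simp only [Pi.add_apply]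
      push_cast
      ring
    simp only [this]
    have := near_anti a (sw b')
    linarith

end Pool.Agent.Run7.h681.Bad
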