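import Mathlib

/-!
Basic facts on compact plane sets in which the distance 1 does not occur.
-/

open Complex Set

namespace Run7.h681

/-- The `i`-th point of the copy of `k` rotated by the angle `t` and shifted by `x`. -/
noncomputable def pt {ι : Type*} (k : ι → ℂ) (x : ℂ) (t : ℝ) (i : ι) : ℂ :=
  x + exp (t * I) * k i

/-- The points of `S` at distance less than 1 from `r`. -/
def sig (S : Set ℂ) (r : ℂ) : Set ℂ := {c | c ∈ S ∧ ‖r - c‖ < 1}

/-- The distances in `S` avoid a neighbourhood of 1. -/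
def Gap (S : Set ℂ) (G : ℝ) : Prop :=
  ∀ p ∈ S, ∀ q ∈ S, ‖p - q‖ ≤ 1 - G ∨ 1 + G ≤ ‖p - q‖

theorem gap_exists {S : Set ℂ} (hS : IsCompact S) (h1 : ∀ p ∈ S, ∀ q ∈ S, ‖p - q‖ ≠ 1) :
    ∃ G : ℝ, 0 < G ∧ G ≤ 1 / 4 ∧ Gap S G := by
  rcases S.eq_empty_or_nonempty with rfl | hne
  · exact ⟨1 / 4, by norm_num, le_rfl, fun p hp => absurd hp (by simp)⟩
  obtain ⟨z, hz, hmin⟩ := (hS.prod hS).exists_isMinOn (hne.prod hne)
    (f := fun z : ℂ × ℂ => |‖z.1 - z.2‖ - 1|) (by fun_prop)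
  have hpos : 0 < |‖z.1 - z.2‖ - 1| := abs_pos.2 (sub_ne_zero.2 (h1 _ hz.1 _ hz.2))
  refine ⟨min (1 / 4) |‖z.1 - z.2‖ - 1|, lt_min (by norm_num) hpos, min_le_left _ _, ?_⟩
  intro p hp q hq
  have h2 : |‖z.1 - z.2‖ - 1| ≤ |‖p - q‖ - 1| := hmin (Set.mk_mem_prod hp hq)
  have h3 := min_le_right (1 / 4) |‖z.1 - z.2‖ - 1|
  rcases le_total 0 (‖p - q‖ - 1) with h | h
  · right
    rw [abs_of_nonneg h] at h2
    linarith
  · left
    rw [abs_of_nonpos h] at h2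
    linarith

theorem mem_sig_self {S : Set ℂ} {r : ℂ} (hr : r ∈ S) : r ∈ sig S r := ⟨hr, by simp⟩

theorem near_of_sig_eq {S : Set ℂ} {r s : ℂ} (hr : r ∈ S) (h : sig S r = sig S s) :
    ‖r - s‖ < 1 := by
  have := mem_sig_self hr
  rw [h] at this
  rw [norm_sub_rev]
  exact this.2

theorem sig_subset {S : Set ℂ} {G : ℝ} (hG : Gap S G) {r s : ℂ} (hr : r ∈ S)
    (hs : s ∈ S) (h : ‖r - s‖ < 2 * G) : sig S r ⊆ sig S s := by
  rintro c ⟨hc, hrc⟩
  refine ⟨hc, ?_⟩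
  have h0 : (0 : ℝ) ≤ ‖r - s‖ := norm_nonneg _
  have h1 : ‖r - c‖ ≤ 1 - G := by
    rcases hG r hr c hc with h | h
    · exact h
    · linarith
  have h2 : ‖s - c‖ ≤ ‖r - s‖ + ‖r - c‖ := by
    have : s - c = -(r - s) + (r - c) := by ring
    rw [this]
    exact (norm_add_le _ _).trans (by rw [norm_neg])
  rcases hG s hs c hc with h | h <;> linarith

theorem sig_eq_of_near {S : Set ℂ} {G : ℝ} (hG : Gap S G) {r s : ℂ} (hr : r ∈ S)
    (hs : s ∈ S) (h : ‖r - s‖ < 2 * G) : sig S r = sig S s :=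
  Subset.antisymm (sig_subset hG hr hs h) (sig_subset hG hs hr (by rwa [norm_sub_rev]))

theorem exp_rot (w v : ℂ) (hv : ‖v‖ = 1) :
    ∃ t ∈ Icc (0 : ℝ) (2 * Real.pi), exp (t * I) * w = (‖w‖ : ℝ) • v := by
  by_cases hw : w = 0
  · exact ⟨0, ⟨le_rfl, by positivity⟩, by simp [hw]⟩
  set z : ℂ := (‖w‖ : ℝ) • v / w with hz
  have hw' : ‖w‖ ≠ 0 := norm_ne_zero_iff.2 hw
  have hz1 : ‖z‖ = 1 := by
    rw [hz, norm_div, norm_smul, hv, mul_one, norm_norm, div_self hw']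
  have hexp : exp (arg z * I) = z := by
    have := norm_mul_exp_arg_mul_I z
    rwa [hz1, ofReal_one, one_mul] at this
  have hzw : z * w = (‖w‖ : ℝ) • v := by
    rw [hz, div_mul_cancel₀ _ hw]
  have hpi := Real.pi_pos
  by_cases h0 : 0 ≤ arg z
  · exact ⟨arg z, ⟨h0, by linarith [arg_le_pi z]⟩, by rw [hexp, hzw]⟩
  · refine ⟨arg z + 2 * Real.pi, ⟨by linarith [neg_pi_lt_arg z], by linarith⟩, ?_⟩
    have : exp ((arg z + 2 * Real.pi : ℝ) * I) = exp (arg z * I) := by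
      push_cast
      rw [add_mul]
      exact exp_periodic _
    rw [this, hexp, hzw]

theorem sepA {S : Set ℂ} {G : ℝ} (hG : Gap S G) (hG0 : 0 < G) {r0 s0 c : ℂ}
    (hs0 : s0 ∈ S) (hc : c ∈ S) (h1 : ‖r0 - c‖ < 1) (h2 : ¬ ‖s0 - c‖ < 1) (w : ℂ) :
    ∃ t ∈ Icc (0 : ℝ) (2 * Real.pi), ∀ r ∈ S, ∀ s ∈ S, sig S r = sig S r0 → sig S s = sig S s0 →
      2 * G ≤ ‖r - s - exp (t * I) * w‖ := by
  have h2' : 1 + G ≤ ‖s0 - c‖ := by
    rcases hG s0 hs0 c hc with h | h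
    · push Not at h2; linarith
    · exact h
  have hn0 : ‖s0 - c‖ ≠ 0 := by linarith
  set v : ℂ := (‖s0 - c‖⁻¹ : ℝ) • (s0 - c) with hv
  have hv1 : ‖v‖ = 1 := by
    rw [hv, norm_smul, norm_inv, norm_norm, inv_mul_cancel₀ hn0]
  obtain ⟨t, ht, hrot⟩ := exp_rot w v hv1
  refine ⟨t, ht, fun r hr s hs hsr hss => ?_⟩
  by_contra hlt
  push Not at hlt
  rw [hrot] at hlt
  have a1 : ‖r - c‖ ≤ 1 - G := by
    have : c ∈ sig S r := by rw [hsr]; exact ⟨hc, h1⟩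
    rcases hG r hr c hc with h | h
    · exact h
    · have := this.2
      linarith
  have a2 : 1 + G ≤ ‖s - c‖ := by
    have : ¬ ‖s - c‖ < 1 := fun h => by
      have : c ∈ sig S s := ⟨hc, h⟩
      rw [hss] at this
      exact h2 this.2
    push Not at this
    rcases hG s hs c hc with h | h
    · linarith
    · exact h
  have a3 : ‖s - s0‖ ≤ 1 - G := by
    have := near_of_sig_eq hs hss
    rcases hG s hs s0 hs0 with h | h
    · exact h
    · linarith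
  have a4 : inner ℝ (s0 - c) v = ‖s0 - c‖ := by
    rw [hv, real_inner_smul_right, real_inner_self_eq_norm_sq]
    field_simp
  have a5 : inner ℝ (s - c) v = inner ℝ (s0 - c) v + inner ℝ (s - s0) v := by
    rw [← inner_add_left]
    congr 1
    ring
  have a6 : |inner ℝ (s - s0) v| ≤ ‖s - s0‖ * ‖v‖ := abs_real_inner_le_norm _ _
  rw [hv1, mul_one] at a6
  have a7 : 0 ≤ inner ℝ (s - c) v := by
    have := (abs_le.1 a6).1
    linarith
  have a8 : ‖s - c‖ ^ 2 ≤ ‖(s - c) + (‖w‖ : ℝ) • v‖ ^ 2 := by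
    rw [norm_add_sq_real, real_inner_smul_right]
    have := mul_nonneg (norm_nonneg w) a7
    nlinarith [sq_nonneg ‖(‖w‖ : ℝ) • v‖]
  have a9 : ‖s - c‖ ≤ ‖(s - c) + (‖w‖ : ℝ) • v‖ :=
    (pow_le_pow_iff_left₀ (norm_nonneg _) (norm_nonneg _) two_ne_zero).1 a8
  have a10 : ‖(s - c) + (‖w‖ : ℝ) • v‖ ≤ ‖r - c‖ + ‖r - s - (‖w‖ : ℝ) • v‖ := by
    have : (s - c) + (‖w‖ : ℝ) • v = (r - c) - (r - s - (‖w‖ : ℝ) • v) := by ring
    rw [this]
    exact norm_sub_le _ _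
  linarith

/-- Points of two different classes do not stay close under a full turn. -/
theorem sep {S : Set ℂ} {G : ℝ} (hG : Gap S G) (hG0 : 0 < G) {r0 s0 : ℂ} (hr0 : r0 ∈ S)
    (hs0 : s0 ∈ S) (hne : sig S r0 ≠ sig S s0) (w : ℂ) :
    ∃ t ∈ Icc (0 : ℝ) (2 * Real.pi), ∀ r ∈ S, ∀ s ∈ S, sig S r = sig S r0 → sig S s = sig S s0 →
      2 * G ≤ ‖r - s - exp (t * I) * w‖ := by
  obtain ⟨c, hc⟩ : ∃ c, ¬ (c ∈ sig S r0 ↔ c ∈ sig S s0) := by
    by_contra h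
    push Not at h
    exact hne (Set.ext h)
  by_cases h : c ∈ sig S r0
  · have h' : c ∉ sig S s0 := fun h' => hc ⟨fun _ => h', fun _ => h⟩
    exact sepA hG hG0 hs0 h.1 h.2 (fun h'' => h' ⟨h.1, h''⟩) w
  · have h' : c ∈ sig S s0 := by
      by_contra h'
      exact hc ⟨fun a => absurd a h, fun a => absurd a h'⟩
    obtain ⟨t, ht, H⟩ := sepA hG hG0 (r0 := s0) (s0 := r0) hr0 h'.1 h'.2
      (fun h'' => h ⟨h'.1, h''⟩) (-w)
    refine ⟨t, ht, fun r hr s hs hsr hss => ?_⟩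
    have := H s hs r hr hss hsr
    have e : s - r - exp (t * I) * -w = -(r - s - exp (t * I) * w) := by ring
    rwa [e, norm_neg] at this

/-- If no copy in a compact region has four points in the compact set `S`, then this holds with
some room to spare. -/
theorem eps_exists {ι : Type*} [Fintype ι] (k : ι → ℂ) {S : Set ℂ} (hS : IsCompact S)
    {B : ℝ} (hB : 0 ≤ B)
    (h3 : ∀ x : ℂ, ‖x‖ ≤ B → ∀ t : ℝ, ∀ A : Finset ι, A.card = 4 → ∃ i ∈ A, pt k x t i ∉ S) :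
    ∃ e : ℝ, 0 < e ∧ ∀ x : ℂ, ‖x‖ ≤ B → ∀ t ∈ Icc (0 : ℝ) (2 * Real.pi), ∀ A : Finset ι,
      A.card = 4 → ∃ i ∈ A, ∀ r ∈ S, e ≤ ‖pt k x t i - r‖ := by
  classical
  rcases S.eq_empty_or_nonempty with rfl | hne
  · refine ⟨1, one_pos, fun x _ t _ A hA => ?_⟩
    have : A.Nonempty := by
      rw [← Finset.card_pos, hA]; norm_num
    obtain ⟨i, hi⟩ := this
    exact ⟨i, hi, by simp⟩
  have key : ∀ A : Finset ι, ∃ e : ℝ, 0 < e ∧ (A.card = 4 → ∀ x : ℂ, ‖x‖ ≤ B →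
      ∀ t ∈ Icc (0 : ℝ) (2 * Real.pi), ∃ i ∈ A, ∀ r ∈ S, e ≤ ‖pt k x t i - r‖) := by
    intro A
    by_cases hA : A.card = 4
    swap
    · exact ⟨1, one_pos, fun h => absurd h hA⟩
    let K0 : Set (ℂ × ℝ) := Metric.closedBall 0 B ×ˢ Icc (0 : ℝ) (2 * Real.pi)
    have hK0 : IsCompact K0 := (isCompact_closedBall _ _).prod isCompact_Icc
    have hK0n : K0.Nonempty := ⟨(0, 0), by
      refine Set.mk_mem_prod ?_ ⟨le_rfl, by positivity⟩
      simpa using hB⟩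
    let F : ℂ × ℝ → ℝ := fun z => ∑ i ∈ A, Metric.infDist (pt k z.1 z.2 i) S
    have hF : Continuous F := by
      refine continuous_finsetSum _ fun i _ => ?_
      refine (Metric.continuous_infDist_pt S).comp ?_
      unfold pt
      fun_prop
    obtain ⟨z, hz, hmin⟩ := hK0.exists_isMinOn hK0n hF.continuousOn
    have hzb : ‖z.1‖ ≤ B := by simpa using hz.1
    have hpos : 0 < F z := by
      obtain ⟨i, hi, hiS⟩ := h3 z.1 hzb z.2 A hA
      refine Finset.sum_pos' (fun j _ => Metric.infDist_nonneg) ⟨i, hi, ?_⟩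
      exact (hS.isClosed.notMem_iff_infDist_pos hne).1 hiS
    refine ⟨F z / 4, by positivity, fun _ x hx t ht => ?_⟩
    have h5 : F z ≤ F (x, t) := hmin (Set.mk_mem_prod (by simpa using hx) ht)
    by_contra hcon
    push Not at hcon
    have h6 : F (x, t) < ∑ _i ∈ A, F z / 4 := by
      refine Finset.sum_lt_sum_of_nonempty (by rw [← Finset.card_pos, hA]; norm_num) ?_
      intro i hi
      obtain ⟨r, hr, hlt⟩ := hcon i hi
      refine lt_of_le_of_lt (Metric.infDist_le_dist_of_mem hr) ?_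
      rwa [dist_eq_norm]
    rw [Finset.sum_const, hA] at h6
    simp only [nsmul_eq_mul] at h6
    push_cast at h6
    linarith
  choose e he1 he2 using key
  refine ⟨Finset.univ.inf' Finset.univ_nonempty e, ?_, ?_⟩
  · exact (Finset.lt_inf'_iff _).2 fun A _ => he1 A
  · intro x hx t ht A hA
    obtain ⟨i, hi, h⟩ := he2 A hA x hx t ht
    exact ⟨i, hi, fun r hr => (Finset.inf'_le e (Finset.mem_univ A)).trans (h r hr)⟩

theorem exp_sub_exp_le (s t : ℝ) : ‖exp (s * I) - exp (t * I)‖ ≤ |s - t| := by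
  have h : exp (s * I) - exp (t * I) = exp (t * I) * (exp (I * ((s - t : ℝ) : ℂ)) - 1) := by
    rw [mul_sub, ← Complex.exp_add, mul_one]
    congr 2
    push_cast
    ring
  rw [h, norm_mul, norm_exp_ofReal_mul_I, one_mul]
  exact Real.norm_exp_I_mul_ofReal_sub_one_le

end Run7.h681
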