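import Pool.Agent.Run7.h681.Main

/-!
The circle argument, and the theorem for closed and for open sets in the complex plane.
-/

open Complex Set

namespace Run7.h681

variable {ι : Type*}

theorem norm_exp_add_third (φ : ℝ) : ‖exp ((φ + Real.pi / 3 : ℝ) * I) - exp (φ * I)‖ = 1 := by
  have h : exp ((φ + Real.pi / 3 : ℝ) * I) - exp (φ * I) =
      exp (φ * I) * (exp ((Real.pi / 3 : ℝ) * I) - 1) := by
    push_cast
    rw [add_mul, Complex.exp_add]
    ring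
  rw [h, norm_mul, norm_exp_ofReal_mul_I, one_mul]
  have h2 : ‖exp ((Real.pi / 3 : ℝ) * I) - 1‖ ^ 2 = 1 := by
    rw [← Complex.normSq_eq_norm_sq, Complex.normSq_apply]
    rw [sub_re, sub_im, exp_ofReal_mul_I_re, exp_ofReal_mul_I_im]
    simp only [one_re, one_im, Real.cos_pi_div_three, Real.sin_pi_div_three]
    have : Real.sqrt 3 * Real.sqrt 3 = 3 := Real.mul_self_sqrt (by norm_num)
    nlinarith
  have h3 := norm_nonneg (exp ((Real.pi / 3 : ℝ) * I) - 1)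
  nlinarith [sq_nonneg (‖exp ((Real.pi / 3 : ℝ) * I) - 1‖ - 1)]

/-- The angles at which the translate of the `j`-th point lies in `F`. -/
def Zs (k : ι → ℂ) (F : Set ℂ) (x : ℂ) (t : ℝ) (j : ι) : Set ℝ :=
  {φ | pt k (x + exp (φ * I)) t j ∈ F}

theorem Zs_closed {k : ι → ℂ} {F : Set ℂ} (hF : IsClosed F) (x : ℂ) (t : ℝ) (j : ι) :
    IsClosed (Zs k F x t j) := by
  refine hF.preimage ?_
  unfold pt
  fun_prop

theorem Zs_shift {k : ι → ℂ} {F : Set ℂ} (h1 : ∀ p ∈ F, ∀ q ∈ F, ‖p - q‖ ≠ 1) {x : ℂ} {t : ℝ}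
    {j : ι} {φ : ℝ} (h : φ ∈ Zs k F x t j) : φ + Real.pi / 3 ∉ Zs k F x t j := by
  intro h'
  refine h1 _ h' _ h ?_
  have : pt k (x + exp ((φ + Real.pi / 3 : ℝ) * I)) t j - pt k (x + exp (φ * I)) t j =
      exp ((φ + Real.pi / 3 : ℝ) * I) - exp (φ * I) := by
    unfold pt; ring
  rw [this]
  exact norm_exp_add_third φ

theorem Zs_disj {k : ι → ℂ} {F : Set ℂ} (h1 : ∀ p ∈ F, ∀ q ∈ F, ‖p - q‖ ≠ 1) {x : ℂ} {t : ℝ}
    {j : ι} (hj : pt k x t j ∈ F) (φ : ℝ) : φ ∉ Zs k F x t j := by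
  intro h
  refine h1 _ h _ hj ?_
  have : pt k (x + exp (φ * I)) t j - pt k x t j = exp (φ * I) := by
    unfold pt; ring
  rw [this, norm_exp_ofReal_mul_I]

/-- Two closed sets of angles cannot cover if both avoid the shift by a sixth of a turn. -/
theorem two_sets {Z W : Set ℝ} (hZ : IsClosed Z) (hW : IsClosed W) (hcov : ∀ φ, φ ∈ Z ∨ φ ∈ W)
    (hZs : ∀ φ ∈ Z, φ + Real.pi / 3 ∉ Z) (hWs : ∀ φ ∈ W, φ + Real.pi / 3 ∉ W) : False := by
  have hne : Z.Nonempty ∧ W.Nonempty := by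
    rcases hcov 0 with h | h
    · refine ⟨⟨0, h⟩, ⟨0 + Real.pi / 3, ?_⟩⟩
      rcases hcov (0 + Real.pi / 3) with h' | h'
      · exact absurd h' (hZs 0 h)
      · exact h'
    · refine ⟨⟨0 + Real.pi / 3, ?_⟩, ⟨0, h⟩⟩
      rcases hcov (0 + Real.pi / 3) with h' | h'
      · exact h'
      · exact absurd h' (hWs 0 h)
  obtain ⟨φ, _, h1, h2⟩ := (isPreconnected_closed_iff.1 (isPreconnected_univ (α := ℝ))) Z W hZ hW
    (fun φ _ => hcov φ) (by simpa using hne.1) (by simpa using hne.2)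
  rcases hcov (φ + Real.pi / 3) with h | h
  · exact hZs φ h1 h
  · exact hWs φ h2 h

/-- With at most six points, no copy has four points in the closed set `F`. -/
theorem no_four [Fintype ι] (hι : Fintype.card ι ≤ 6) {k : ι → ℂ} {F : Set ℂ} (hF : IsClosed F)
    (h1 : ∀ p ∈ F, ∀ q ∈ F, ‖p - q‖ ≠ 1) {B : ℝ}
    (h2 : ∀ x : ℂ, ‖x‖ ≤ B + 1 → ∀ t : ℝ, ∃ i, pt k x t i ∈ F)
    (x : ℂ) (hx : ‖x‖ ≤ B) (t : ℝ) (A : Finset ι) (hA : A.card = 4) :
    ∃ i ∈ A, pt k x t i ∉ F := by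
  classical
  by_contra hcon
  push Not at hcon
  have hhit : ∀ φ : ℝ, ∃ j ∈ Aᶜ, φ ∈ Zs k F x t j := by
    intro φ
    have hx' : ‖x + exp (φ * I)‖ ≤ B + 1 := by
      refine (norm_add_le _ _).trans ?_
      rw [norm_exp_ofReal_mul_I]
      linarith
    obtain ⟨j, hj⟩ := h2 _ hx' t
    refine ⟨j, ?_, hj⟩
    rw [Finset.mem_compl]
    intro hjA
    exact Zs_disj h1 (hcon j hjA) φ hj
  have hc : (Aᶜ).card ≤ 2 := by
    rw [Finset.card_compl, hA]; omega
  obtain ⟨a, b, hab⟩ : ∃ a b : ι, ∀ j ∈ Aᶜ, j = a ∨ j = b := by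
    obtain ⟨a, ha, _⟩ := hhit 0
    by_cases h : ∀ j ∈ Aᶜ, j = a
    · exact ⟨a, a, fun j hj => Or.inl (h j hj)⟩
    · push Not at h
      obtain ⟨b, hb, hba⟩ := h
      refine ⟨a, b, fun j hj => ?_⟩
      by_contra hj'
      push Not at hj'
      have hsub : ({a, b, j} : Finset ι) ⊆ Aᶜ := by
        intro z hz
        simp only [Finset.mem_insert, Finset.mem_singleton] at hz
        rcases hz with rfl | rfl | rfl <;> assumption
      have h3 : ({a, b, j} : Finset ι).card = 3 := by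
        rw [Finset.card_insert_of_notMem, Finset.card_insert_of_notMem, Finset.card_singleton]
        · simpa using hj'.2.symm
        · simp only [Finset.mem_insert, Finset.mem_singleton, not_or]
          exact ⟨hba.symm, hj'.1.symm⟩
      have := Finset.card_le_card hsub
      omega
  refine two_sets (Z := Zs k F x t a) (W := Zs k F x t b) (Zs_closed hF x t a)
    (Zs_closed hF x t b) (fun φ => ?_)
    (fun φ hφ => Zs_shift h1 hφ) (fun φ hφ => Zs_shift h1 hφ)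
  obtain ⟨j, hj, hφ⟩ := hhit φ
  rcases hab j hj with rfl | rfl
  · exact Or.inl hφ
  · exact Or.inr hφ

theorem norm_pt_le {k : ι → ℂ} {M : ℝ} (hM : ∀ i, ‖k i‖ ≤ M) (x : ℂ) (t : ℝ) (i : ι) :
    ‖pt k x t i‖ ≤ ‖x‖ + M := by
  unfold pt
  refine (norm_add_le _ _).trans ?_
  rw [norm_mul, norm_exp_ofReal_mul_I, one_mul]
  linarith [hM i]

/-- Local theorem for closed sets. -/
theorem closed_local [Fintype ι] (k : ι → ℂ) {M : ℝ} (hM0 : 0 ≤ M) (hM : ∀ i, ‖k i‖ ≤ M)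
    {F : Set ℂ} (hF : IsClosed F) (h1 : ∀ p ∈ F, ∀ q ∈ F, ‖p - q‖ ≠ 1)
    (h2 : ∀ x : ℂ, ‖x‖ ≤ 2 * M + 2 → ∀ t : ℝ, ∃ i, pt k x t i ∈ F)
    (h3 : ∀ x : ℂ, ‖x‖ ≤ 2 * M + 2 → ∀ t : ℝ, ∀ A : Finset ι, A.card = 4 →
      ∃ i ∈ A, pt k x t i ∉ F) : False := by
  have hS : IsCompact (F ∩ Metric.closedBall 0 (3 * M + 2)) :=
    (isCompact_closedBall _ _).inter_left hF
  refine core k hM0 hM hS (fun p hp q hq => h1 p hp.1 q hq.1) ?_ ?_
  · intro x hx t
    obtain ⟨i, hi⟩ := h2 x hx t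
    refine ⟨i, hi, ?_⟩
    have := norm_pt_le hM x t i
    simp only [Metric.mem_closedBall, dist_zero_right]
    linarith
  · intro x hx t A hA
    obtain ⟨i, hi, h⟩ := h3 x hx t A hA
    exact ⟨i, hi, fun h' => h h'.1⟩

theorem closed_six [Fintype ι] (hι : Fintype.card ι ≤ 6) (k : ι → ℂ) {M : ℝ} (hM0 : 0 ≤ M)
    (hM : ∀ i, ‖k i‖ ≤ M) {F : Set ℂ} (hF : IsClosed F) (h1 : ∀ p ∈ F, ∀ q ∈ F, ‖p - q‖ ≠ 1)
    (h2 : ∀ x : ℂ, ‖x‖ ≤ 2 * M + 3 → ∀ t : ℝ, ∃ i, pt k x t i ∈ F) : False :=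
  closed_local k hM0 hM hF h1 (fun x hx t => h2 x (by linarith) t)
    (no_four hι hF h1 (B := 2 * M + 2) (fun x hx t => h2 x (by linarith) t))

/-- From an open set which meets all copies in a region to a closed subset with this property. -/
theorem open_shrink [Fintype ι] (k : ι → ℂ) {R : Set ℂ} (hR : IsOpen R) {B : ℝ}
    (h2 : ∀ x : ℂ, ‖x‖ ≤ B → ∀ t : ℝ, ∃ i, pt k x t i ∈ R) :
    ∃ F : Set ℂ, IsClosed F ∧ F ⊆ R ∧ ∀ x : ℂ, ‖x‖ ≤ B → ∀ t : ℝ, ∃ i, pt k x t i ∈ F := by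
  classical
  rcases (Rᶜ).eq_empty_or_nonempty with hc | hne
  · have : R = univ := by rwa [compl_empty_iff] at hc
    exact ⟨univ, isClosed_univ, by rw [this], fun x hx t => by
      obtain ⟨i, _⟩ := h2 x hx t
      exact ⟨i, mem_univ _⟩⟩
  by_cases hB : 0 ≤ B
  swap
  · exact ⟨∅, isClosed_empty, empty_subset _, fun x hx t => absurd ((norm_nonneg x).trans hx) hB⟩
  let K0 : Set (ℂ × ℝ) := Metric.closedBall 0 B ×ˢ Icc (0 : ℝ) (2 * Real.pi)
  have hK0 : IsCompact K0 := (isCompact_closedBall _ _).prod isCompact_Icc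
  have hK0n : K0.Nonempty := ⟨(0, 0), by
    refine Set.mk_mem_prod ?_ ⟨le_rfl, by positivity⟩
    simpa using hB⟩
  let Φ : ℂ × ℝ → ℝ := fun z => ∑ i, Metric.infDist (pt k z.1 z.2 i) Rᶜ
  have hΦ : Continuous Φ := by
    refine continuous_finsetSum _ fun i _ => ?_
    refine (Metric.continuous_infDist_pt _).comp ?_
    unfold pt
    fun_prop
  obtain ⟨z, hz, hmin⟩ := hK0.exists_isMinOn hK0n hΦ.continuousOn
  have hzb : ‖z.1‖ ≤ B := by simpa using hz.1
  have hpos : 0 < Φ z := by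
    obtain ⟨i, hi⟩ := h2 z.1 hzb z.2
    refine Finset.sum_pos' (fun j _ => Metric.infDist_nonneg) ⟨i, Finset.mem_univ _, ?_⟩
    exact (hR.isClosed_compl.notMem_iff_infDist_pos hne).1 (by simpa using hi)
  have hcard : (0 : ℝ) < Fintype.card ι := by
    obtain ⟨i, _⟩ := h2 z.1 hzb z.2
    exact_mod_cast Fintype.card_pos_iff.2 ⟨i⟩
  set d : ℝ := Φ z / Fintype.card ι with hd
  have hd0 : 0 < d := by positivity
  refine ⟨{y | d ≤ Metric.infDist y Rᶜ}, ?_, ?_, ?_⟩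
  · exact isClosed_le continuous_const (Metric.continuous_infDist_pt _)
  · intro y hy
    by_contra hyR
    have : Metric.infDist y Rᶜ = 0 := Metric.infDist_zero_of_mem hyR
    have hy' : d ≤ Metric.infDist y Rᶜ := hy
    linarith
  · intro x hx t
    -- reduce the angle to one turn
    obtain ⟨t', ht', hexp⟩ : ∃ t' ∈ Icc (0 : ℝ) (2 * Real.pi), exp (t' * I) = exp (t * I) := by
      obtain ⟨t', ht', h⟩ := exp_rot 1 (exp (t * I)) (norm_exp_ofReal_mul_I t)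
      refine ⟨t', ht', ?_⟩
      simpa using h
    have hpt : ∀ i, pt k x t i = pt k x t' i := by
      intro i; unfold pt; rw [hexp]
    have h5 : Φ z ≤ Φ (x, t') := hmin (Set.mk_mem_prod (by simpa using hx) ht')
    by_contra hcon
    push Not at hcon
    have h6 : Φ (x, t') < ∑ _i : ι, d := by
      refine Finset.sum_lt_sum_of_nonempty ?_ ?_
      · exact Finset.card_pos.1 (by simpa using (by exact_mod_cast hcard : 0 < Fintype.card ι))
      · intro i _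
        have := hcon i
        rw [hpt] at this
        exact not_le.1 this
    rw [Finset.sum_const, Finset.card_univ, nsmul_eq_mul, hd, mul_div_cancel₀ _ hcard.ne'] at h6
    linarith

end Run7.h681
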