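import Pool.Agent.TH4.CT.Transfer

set_option autoImplicit false

/-!
# Pairs of congruent numbers at distance seven
-/

namespace Pool.Agent.Run7.h681.CP

open Finset Filter
open Pool.Agent.TH4.CT
open scoped Classical

/-- `x² + a y² = z²`, `x² - a y² = t²` is solvable in positive integers -/
def Cong (a : ℕ) : Prop :=
  ∃ x y z t : ℕ, 0 < x ∧ 0 < y ∧ 0 < z ∧ 0 < t ∧ x ^ 2 + a * y ^ 2 = z ^ 2 ∧
    x ^ 2 = a * y ^ 2 + t ^ 2

lemma two_sq {u v : ℤ} (hv : v ≠ 0) (h : u ^ 2 = 2 * v ^ 2) : False := by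
  have h4 : Irrational (Real.sqrt 2) := irrational_sqrt_two
  apply h4
  refine ⟨|(u : ℚ)| / |(v : ℚ)|, ?_⟩
  have hv' : (|(v : ℝ)|) ≠ 0 := by
    rw [abs_ne_zero]; exact_mod_cast hv
  push_cast
  symm
  rw [Real.sqrt_eq_iff_mul_self_eq (by norm_num) (by positivity)]
  have h5 : (u : ℝ) ^ 2 = 2 * (v : ℝ) ^ 2 := by exact_mod_cast h
  rw [div_mul_div_comm, ← pow_two, ← pow_two, sq_abs, sq_abs, h5]
  have : (v : ℝ) ^ 2 ≠ 0 := by
    have : (v : ℝ) ≠ 0 := by exact_mod_cast hv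
    positivity
  field_simp

/-- areas of Heron type -/
lemma cong_of {n : ℕ} {R S m : ℤ} (hS : 0 < S) (hSR : S < R) (hm : 0 < m)
    (h : (n : ℤ) * m ^ 2 = R * S * (R ^ 2 - S ^ 2)) : Cong n := by
  have hR : 0 < R := hS.trans hSR
  have ht : R ^ 2 - S ^ 2 - 2 * R * S ≠ 0 := by
    intro h0
    apply two_sq (u := R - S) (v := S) hS.ne'
    linear_combination h0
  have hz : 0 < R ^ 2 - S ^ 2 + 2 * R * S := by nlinarith
  refine ⟨(R ^ 2 + S ^ 2).natAbs, (2 * m).natAbs, (R ^ 2 - S ^ 2 + 2 * R * S).natAbs,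
    (R ^ 2 - S ^ 2 - 2 * R * S).natAbs, ?_, ?_, ?_, ?_, ?_, ?_⟩
  · exact Int.natAbs_pos.2 (by positivity)
  · exact Int.natAbs_pos.2 (by positivity)
  · exact Int.natAbs_pos.2 hz.ne'
  · exact Int.natAbs_pos.2 ht
  · zify
    simp only [sq_abs]
    linear_combination 4 * h
  · zify
    simp only [sq_abs]
    linear_combination -4 * h

/-- from the variable `t` to a function of size `C t ^ e` -/
lemma transfer (C e N0 : ℕ) (hC : 0 < C) (he : 0 < e) (g : ℕ → ℕ) (G N : ℕ → Prop)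
    (hg1 : ∀ t, N0 < t → 0 < g t) (hg : ∀ t, N0 < t → g t ≤ C * t ^ e)
    (hinj : ∀ t t', N0 < t → N0 < t' → g t = g t' → t = t')
    (hGN : ∀ t, N0 < t → G t → N (g t)) {c : ℝ} (hc : 0 < c)
    (h : ∀ᶠ T : ℕ in atTop, c * T ≤ (((Icc 1 T).filter (fun t => N0 < t ∧ G t)).card : ℝ)) :
    ∃ c' : ℝ, 0 < c' ∧ ∀ᶠ X : ℕ in atTop,
      c' * (X : ℝ) ^ (1 / (e : ℝ)) ≤ (((Icc 1 X).filter N).card : ℝ) := by
  have her : (0 : ℝ) < e := by exact_mod_cast he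
  have hAr : (0 : ℝ) < C := by exact_mod_cast hC
  set B : ℝ := ((C : ℝ) ^ (1 / (e : ℝ)))⁻¹ with hB
  have hB0 : 0 < B := by positivity
  set τ : ℕ → ℕ := fun X => ⌊B * (X : ℝ) ^ (1 / (e : ℝ))⌋₊ with hτ
  have ht1 : Tendsto (fun X : ℕ => B * (X : ℝ) ^ (1 / (e : ℝ))) atTop atTop :=
    ((tendsto_rpow_atTop (by positivity)).comp tendsto_natCast_atTop_atTop).const_mul_atTop hB0
  have ht2 : Tendsto τ atTop atTop := tendsto_nat_floor_atTop.comp ht1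
  refine ⟨c * B / 2, by positivity, ?_⟩
  filter_upwards [ht2.eventually h, ht1.eventually_ge_atTop 2] with X h1 h2
  have h3 : B * (X : ℝ) ^ (1 / (e : ℝ)) < τ X + 1 := Nat.lt_floor_add_one _
  have h4 : c * B / 2 * (X : ℝ) ^ (1 / (e : ℝ)) ≤ c * τ X := by
    have : c * B / 2 * (X : ℝ) ^ (1 / (e : ℝ)) = c * (B * (X : ℝ) ^ (1 / (e : ℝ)) / 2) := by ring
    rw [this]
    apply mul_le_mul_of_nonneg_left _ hc.le
    linarith
  refine h4.trans (h1.trans ?_)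
  rw [Nat.cast_le]
  apply card_le_card_of_injOn g
  · intro t ht
    obtain ⟨h5, h6, h6'⟩ := mem_filter.1 (mem_coe.1 ht)
    obtain ⟨h7, h8⟩ := mem_Icc.1 h5
    apply mem_coe.2
    refine mem_filter.2 ⟨mem_Icc.2 ⟨hg1 t h6, (hg t h6).trans ?_⟩, hGN t h6 h6'⟩
    have h9 : (t : ℝ) ≤ B * (X : ℝ) ^ (1 / (e : ℝ)) :=
      le_trans (by exact_mod_cast h8) (Nat.floor_le (by positivity))
    have h10 : ((C : ℝ) ^ (1 / (e : ℝ)) * t) ^ e ≤ ((X : ℝ) ^ (1 / (e : ℝ))) ^ e := by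
      apply pow_le_pow_left₀ (by positivity)
      rw [hB, inv_mul_eq_div, le_div_iff₀ (by positivity)] at h9
      linarith
    rw [mul_pow, ← Real.rpow_natCast, ← Real.rpow_mul hAr.le, one_div_mul_cancel her.ne',
      Real.rpow_one, ← Real.rpow_natCast ((X : ℝ) ^ (1 / (e : ℝ))), ← Real.rpow_mul
      (Nat.cast_nonneg _), one_div_mul_cancel her.ne', Real.rpow_one] at h10
    exact_mod_cast h10
  · intro t ht t' ht' heq
    exact hinj t t' (mem_filter.1 (mem_coe.1 ht)).2.1 (mem_filter.1 (mem_coe.1 ht')).2.1 heq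

/-- a prime square dividing a product of two coprime numbers divides one of them -/
lemma sq_dvd_or {p : ℕ} (hp : p.Prime) {a b : ℤ} (hab : ¬ ((p : ℤ) ∣ a ∧ (p : ℤ) ∣ b))
    (h : (p : ℤ) ^ 2 ∣ a * b) : (p : ℤ) ^ 2 ∣ a ∨ (p : ℤ) ^ 2 ∣ b := by
  by_cases h1 : (p : ℤ) ∣ a
  · left
    have h2 : ¬ (p : ℤ) ∣ b := fun h2 => hab ⟨h1, h2⟩
    exact IsCoprime.dvd_of_dvd_mul_right ((isCoprime_of hp h2).pow_left) h
  · right
    exact IsCoprime.dvd_of_dvd_mul_left ((isCoprime_of hp h1).pow_left) h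

end Pool.Agent.Run7.h681.CP
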