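import Pool.Agent.Run7.h681.CongPairs

set_option autoImplicit false

/-!
# Clusters of congruent numbers with prescribed classes modulo `8`
-/

namespace Pool.Agent.Run7.h681.CQ

open Finset Filter
open Pool.Agent.TH4.CT
open Pool.Agent.Run7.h681.CP
open scoped Classical

/-- the bound -/
def NB (k : ℕ) : ℕ := 32 * (k + 1)

/-- the product of the odd primes up to the bound -/
noncomputable def V (k : ℕ) : ℕ :=
  ∏ p ∈ (range (NB k + 1)).filter (fun p => p.Prime ∧ p ≠ 2), p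

lemma V_pos (k : ℕ) : 0 < V k := by
  unfold V
  apply Finset.prod_pos
  intro p hp
  exact (mem_filter.1 hp).2.1.pos

lemma dvd_V {k p : ℕ} (hp : p.Prime) : p ∣ V k ↔ p ≤ NB k ∧ p ≠ 2 := by
  unfold V
  rw [Prime.dvd_finsetProd_iff hp.prime]
  constructor
  · rintro ⟨q, hq, hd⟩
    obtain ⟨h1, h2, h3⟩ := mem_filter.1 hq
    have h4 : p = q := (Nat.prime_dvd_prime_iff_eq hp h2).1 hd
    subst h4
    exact ⟨by have := mem_range.1 h1; omega, h3⟩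
  · rintro ⟨h1, h2⟩
    exact ⟨p, mem_filter.2 ⟨mem_range.2 (by omega), hp, h2⟩, dvd_rfl⟩

lemma V_odd (k : ℕ) : V k % 2 = 1 := by
  by_contra h
  have h1 : 2 ∣ V k := by omega
  exact ((dvd_V Nat.prime_two).1 h1).2 rfl

lemma V8 (k : ℕ) : V k ^ 8 % 32 = 1 := by
  have key : ∀ v < 32, v % 2 = 1 → v ^ 8 % 32 = 1 := by decide
  rw [Nat.pow_mod]
  apply key _ (Nat.mod_lt _ (by norm_num))
  have := V_odd k
  omega

section
variable (k : ℕ) (s : ℕ → ℕ)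

/-- the small factors -/
def mm (i : ℕ) : ℕ := s i + 32 * (k - i)

/-- the numbers `y` -/
noncomputable def yy (i : ℕ) : ℕ := V k ^ 8 * mm k s i

/-- the constants `(1 - y ^ 4) / 16` -/
noncomputable def ee (i : ℕ) : ℤ := (1 - (yy k s i : ℤ) ^ 4) / 16

/-- the polynomial `((1 + 32 V t) ^ 4 - 1) / 16` -/
noncomputable def qq (t : ℤ) : ℤ :=
  8 * (V k * t) + 384 * (V k * t) ^ 2 + 8192 * (V k * t) ^ 3 + 65536 * (V k * t) ^ 4

/-- the numbers -/
noncomputable def dd (i : ℕ) (t : ℤ) : ℤ := qq k t + ee k s i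

/-- the quadratic factors -/
noncomputable def gf (x : ℕ × ℤ) (t : ℤ) : ℤ :=
  (32 * (V k : ℤ)) ^ 2 * t ^ 2 + 64 * (V k : ℤ) * t + (1 - x.2 * (yy k s x.1 : ℤ) ^ 2)

variable {k s}

lemma yy_mod {i : ℕ} (hs : s i < 32) : yy k s i % 32 = s i := by
  unfold yy mm
  rw [Nat.mul_mod, V8, one_mul, Nat.mod_mod]
  omega

lemma yy_pos {i : ℕ} (hs : s i < 32) (hs2 : s i % 2 = 1) : 0 < yy k s i := by
  have := yy_mod (k := k) hs
  by_contra h
  have h1 : yy k s i = 0 := by omega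
  rw [h1] at this
  omega

lemma ee_eq {i : ℕ} (hs : s i < 32) (hs2 : s i % 2 = 1) :
    16 * ee k s i = 1 - (yy k s i : ℤ) ^ 4 := by
  have h1 : yy k s i % 2 = 1 := by
    have := yy_mod (k := k) hs
    omega
  obtain ⟨z, hz⟩ : ∃ z : ℤ, (yy k s i : ℤ) = 2 * z + 1 := ⟨(yy k s i : ℤ) / 2, by omega⟩
  obtain ⟨w, hw⟩ := Int.even_mul_succ_self z
  unfold ee
  apply Int.mul_ediv_cancel'
  rw [hz]
  refine ⟨-(w * (2 * z ^ 2 + 2 * z + 1)), ?_⟩
  have e : 1 - (2 * z + 1) ^ 4 = -(8 * (z * (z + 1)) * (2 * z ^ 2 + 2 * z + 1)) := by ring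
  rw [e, hw]
  ring

lemma dd_eq {i : ℕ} (hs : s i < 32) (hs2 : s i % 2 = 1) (t : ℤ) :
    16 * dd k s i t = (1 + 32 * V k * t) ^ 4 - (yy k s i : ℤ) ^ 4 := by
  have := ee_eq (k := k) hs hs2
  simp only [dd, qq]
  linear_combination this

lemma ee_mod {i r : ℕ} (hs : s i < 32) (hs2 : s i % 2 = 1) (hr : (s i ^ 4 + 16 * r) % 128 = 1) :
    ee k s i % 8 = r % 8 := by
  have h1 := ee_eq (k := k) hs hs2
  have h2 := yy_mod (k := k) hs
  obtain ⟨u, hu⟩ : ∃ u : ℤ, (yy k s i : ℤ) = s i + 32 * u := ⟨(yy k s i : ℤ) / 32, by omega⟩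
  have h3 : (yy k s i : ℤ) ^ 4 = (s i : ℤ) ^ 4 + 128 * ((s i : ℤ) ^ 3 * u + 48 * (s i : ℤ) ^ 2 * u ^ 2 +
      1024 * (s i : ℤ) * u ^ 3 + 8192 * u ^ 4) := by
    rw [hu]; ring
  have h4 : ((s i : ℤ) ^ 4 + 16 * r) % 128 = 1 := by exact_mod_cast hr
  generalize (s i : ℤ) ^ 3 * u + 48 * (s i : ℤ) ^ 2 * u ^ 2 +
      1024 * (s i : ℤ) * u ^ 3 + 8192 * u ^ 4 = w at h3
  generalize (s i : ℤ) ^ 4 = a at h3 h4
  generalize (yy k s i : ℤ) ^ 4 = b at h1 h3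
  omega

lemma nd_V {p : ℕ} (hp : p.Prime) (h : NB k < p) : ¬ (p : ℤ) ∣ (V k : ℤ) := by
  intro h1
  have h2 : p ∣ V k := by exact_mod_cast h1
  have := ((dvd_V hp).1 h2).1
  omega

lemma mm_le {i : ℕ} (hs : s i < 32) : mm k s i ≤ NB k := by
  unfold mm NB; omega

lemma nd_y {p : ℕ} (hp : p.Prime) (h : NB k < p) {i : ℕ} (hs : s i < 32) (hs2 : s i % 2 = 1) :
    ¬ (p : ℤ) ∣ (yy k s i : ℤ) := by
  intro h1
  have h2 : p ∣ yy k s i := by exact_mod_cast h1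
  unfold yy at h2
  rcases (Nat.Prime.dvd_mul hp).1 h2 with h3 | h3
  · exact nd_V (k := k) hp h (by exact_mod_cast hp.dvd_of_dvd_pow h3)
  · have h4 := Nat.le_of_dvd (by unfold mm; omega) h3
    have := mm_le (k := k) hs
    omega

lemma nd_two {p : ℕ} (hp : p.Prime) (h : NB k < p) (e : ℕ) : ¬ (p : ℤ) ∣ 2 ^ e := by
  intro h1
  have h2 : (p : ℤ) ∣ 2 := (Nat.prime_iff_prime_int.1 hp).dvd_of_dvd_pow h1
  have := Int.le_of_dvd (by norm_num) h2
  unfold NB at h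
  omega

lemma gf_roots (hs : ∀ i, s i < 32) (hs2 : ∀ i, s i % 2 = 1) {p : ℕ} (hp : p.Prime) (h : NB k < p)
    (x : ℕ × ℤ) (hx : x ∈ range k ×ˢ ({1, -1} : Finset ℤ)) :
    TwoRoots p (gf k s x) := by
  have hpp : Prime (p : ℤ) := Nat.prime_iff_prime_int.1 hp
  obtain ⟨i, σ⟩ := x
  simp only [mem_product, mem_range, mem_insert, mem_singleton] at hx
  obtain ⟨hi, hσ⟩ := hx
  have key : ¬ (p : ℤ) ∣ (2 : ℤ) ^ 12 * (V k : ℤ) ^ 2 * (yy k s i : ℤ) ^ 2 := by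
    intro h3
    rcases hpp.dvd_or_dvd h3 with h3 | h3
    · rcases hpp.dvd_or_dvd h3 with h3 | h3
      · exact nd_two hp h 12 h3
      · exact nd_V hp h (hpp.dvd_of_dvd_pow h3)
    · exact nd_y hp h (hs i) (hs2 i) (hpp.dvd_of_dvd_pow h3)
  refine twoRoots_quadratic hp ((32 * (V k : ℤ)) ^ 2) (64 * (V k : ℤ))
    (1 - σ * (yy k s i : ℤ) ^ 2) ?_ ?_
  · intro h1
    rcases hpp.dvd_or_dvd (hpp.dvd_of_dvd_pow h1) with h3 | h3
    · apply nd_two hp h 5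
      norm_num
      exact h3
    · exact nd_V hp h h3
  · rcases hσ with rfl | rfl
    · intro h1
      apply key
      convert h1 using 1
      ring
    · intro h1
      apply key
      rw [← Int.dvd_neg]
      convert h1 using 1
      ring

lemma gf_size (hs : ∀ i, s i < 32) (hs2 : ∀ i, s i % 2 = 1) (x : ℕ × ℤ)
    (hx : x ∈ range k ×ˢ ({1, -1} : Finset ℤ)) (t : ℤ) (ht : ((V k ^ 8 * NB k : ℕ) : ℤ) < t) :
    gf k s x t ≠ 0 ∧ |gf k s x t| ≤ (((66 * V k : ℕ) : ℤ) * t) ^ 2 := by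
  obtain ⟨i, σ⟩ := x
  simp only [mem_product, mem_range, mem_insert, mem_singleton] at hx
  obtain ⟨hi, hσ⟩ := hx
  have hV : (1 : ℤ) ≤ V k := by exact_mod_cast V_pos k
  have hy : (yy k s i : ℤ) < t := by
    refine lt_of_le_of_lt ?_ ht
    have : yy k s i ≤ V k ^ 8 * NB k := by
      unfold yy
      exact Nat.mul_le_mul_left _ (mm_le (hs i))
    exact_mod_cast this
  have hy0 : (0 : ℤ) < yy k s i := by exact_mod_cast yy_pos (k := k) (hs i) (hs2 i)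
  have ht0 : (0 : ℤ) < t := hy0.trans hy
  have h1 : (yy k s i : ℤ) < 1 + 32 * V k * t := by nlinarith
  have h3 : (yy k s i : ℤ) ^ 2 < (1 + 32 * V k * t) ^ 2 :=
    pow_lt_pow_left₀ h1 hy0.le two_ne_zero
  have h7 : (1 + 32 * (V k : ℤ) * t) ^ 2 ≤ (33 * V k * t) ^ 2 := by
    apply pow_le_pow_left₀ (by positivity)
    nlinarith
  have h8 : (((66 * V k : ℕ) : ℤ) * t) ^ 2 = 4 * (33 * V k * t) ^ 2 := by push_cast; ring
  have h6 : (0 : ℤ) ≤ (yy k s i : ℤ) ^ 2 := by positivity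
  rcases hσ with rfl | rfl
  · have e : gf k s (i, 1) t = (1 + 32 * V k * t) ^ 2 - (yy k s i : ℤ) ^ 2 := by
      simp only [gf]; ring
    rw [e, h8]
    refine ⟨by linarith, ?_⟩
    rw [abs_le]
    constructor <;> linarith
  · have e : gf k s (i, -1) t = (1 + 32 * V k * t) ^ 2 + (yy k s i : ℤ) ^ 2 := by
      simp only [gf]; ring
    rw [e, h8]
    refine ⟨by positivity, ?_⟩
    rw [abs_le]
    constructor <;> linarith

lemma dd_fac (hs : ∀ i, s i < 32) (hs2 : ∀ i, s i % 2 = 1) {p : ℕ} (hp : p.Prime) (h : NB k < p)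
    {i : ℕ} (hi : i < k) (t : ℤ) (hd : (p : ℤ) ^ 2 ∣ dd k s i t) :
    ∃ x ∈ range k ×ˢ ({1, -1} : Finset ℤ), (p : ℤ) ^ 2 ∣ gf k s x t := by
  have hpp : Prime (p : ℤ) := Nat.prime_iff_prime_int.1 hp
  have h0 : (p : ℤ) ^ 2 ∣ gf k s (i, 1) t * gf k s (i, -1) t := by
    have e : gf k s (i, 1) t * gf k s (i, -1) t = 16 * dd k s i t := by
      rw [dd_eq (hs i) (hs2 i)]
      simp only [gf]; ring
    rw [e]
    exact hd.mul_left _
  rcases sq_dvd_or hp (by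
    rintro ⟨ha, hb⟩
    have h2 := dvd_sub hb ha
    have e : gf k s (i, -1) t - gf k s (i, 1) t = 2 ^ 1 * (yy k s i : ℤ) ^ 2 := by
      simp only [gf]; ring
    rw [e] at h2
    rcases hpp.dvd_or_dvd h2 with h3 | h3
    · exact nd_two hp h 1 h3
    · exact nd_y hp h (hs i) (hs2 i) (hpp.dvd_of_dvd_pow h3)) h0 with h2 | h2
  · exact ⟨(i, 1), by simp [hi], h2⟩
  · exact ⟨(i, -1), by simp [hi], h2⟩

lemma dd_per (i : ℕ) (n t t' : ℤ) (h : n ∣ t - t') : n ∣ dd k s i t - dd k s i t' := by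
  have h1 : t' ≡ t [ZMOD n] := Int.modEq_iff_dvd.2 h
  apply Int.modEq_iff_dvd.1
  simp only [dd, qq]
  gcongr

lemma dd_loc {r : ℕ → ℕ} (hs : ∀ i, s i < 32) (hs2 : ∀ i, s i % 2 = 1)
    (hr : ∀ i, (s i ^ 4 + 16 * r i) % 128 = 1) (hr4 : ∀ i, r i % 4 ≠ 0) (p : ℕ) (hp : p.Prime) :
    ∃ t : ℕ, ∀ i ∈ range k, ¬ (p : ℤ) ^ 2 ∣ dd k s i t := by
  have hpp : Prime (p : ℤ) := Nat.prime_iff_prime_int.1 hp
  rcases le_or_gt p (NB k) with h | h
  · refine ⟨0, fun i _ hd => ?_⟩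
    have e : dd k s i ((0 : ℕ) : ℤ) = ee k s i := by simp [dd, qq]
    rw [e] at hd
    by_cases h2 : p = 2
    · subst h2
      have h3 := ee_mod (k := k) (hs i) (hs2 i) (hr i)
      have h4 := hr4 i
      norm_num at hd
      omega
    · have hV : (p : ℤ) ∣ (V k : ℤ) := by exact_mod_cast (dvd_V hp).2 ⟨h, h2⟩
      have hy : (p : ℤ) ∣ (yy k s i : ℤ) := by
        unfold yy
        push_cast
        exact (dvd_pow hV (by norm_num)).mul_right _
      have h3 : (p : ℤ) ∣ 16 * ee k s i := ((dvd_pow_self _ two_ne_zero).trans hd).mul_left _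
      rw [ee_eq (hs i) (hs2 i)] at h3
      have h4 := dvd_add h3 (dvd_pow hy (show (4 : ℕ) ≠ 0 by norm_num))
      rw [sub_add_cancel] at h4
      exact hp.one_lt.ne' (by exact_mod_cast Int.eq_one_of_dvd_one (by positivity) h4)
  · have hV := nd_V (k := k) hp h
    have h32 : ¬ (p : ℤ) ∣ 32 * (V k : ℤ) := by
      intro h3
      rcases hpp.dvd_or_dvd h3 with h3 | h3
      · apply nd_two (k := k) hp h 5
        norm_num
        exact h3
      · exact hV h3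
    obtain ⟨a, b, hab⟩ := isCoprime_of hp h32
    have hp0 : (0 : ℤ) < p := by exact_mod_cast hp.pos
    refine ⟨((-b) % p).toNat, fun i hi hd => ?_⟩
    have hc : ((((-b) % p).toNat : ℕ) : ℤ) = (-b) % p :=
      Int.toNat_of_nonneg (Int.emod_nonneg _ hp0.ne')
    rw [hc] at hd
    have h1 : (p : ℤ) ∣ 1 + 32 * V k * ((-b) % p) := by
      have h2 : (p : ℤ) ∣ (-b) - (-b) % p := Int.dvd_self_sub_emod
      have e : 1 + 32 * (V k : ℤ) * ((-b) % p) =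
          a * p - 32 * V k * ((-b) - (-b) % p) := by
        rw [← hab]; ring
      rw [e]
      exact dvd_sub (dvd_mul_left _ _) (h2.mul_left _)
    have h3 : (p : ℤ) ∣ 16 * dd k s i ((-b) % p) :=
      ((dvd_pow_self _ two_ne_zero).trans hd).mul_left _
    rw [dd_eq (hs i) (hs2 i)] at h3
    have h4 := dvd_sub (dvd_pow h1 (show (4 : ℕ) ≠ 0 by norm_num)) h3
    rw [sub_sub_cancel] at h4
    exact nd_y hp h (hs i) (hs2 i) (hpp.dvd_of_dvd_pow h4)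

/-- a positive proportion of simultaneously squarefree values -/
lemma tuples {r : ℕ → ℕ} (hs : ∀ i, s i < 32) (hs2 : ∀ i, s i % 2 = 1)
    (hr : ∀ i, (s i ^ 4 + 16 * r i) % 128 = 1) (hr4 : ∀ i, r i % 4 ≠ 0) :
    ∃ c : ℝ, 0 < c ∧ ∀ᶠ T : ℕ in atTop, c * T ≤
      (((Ioc (0 : ℤ) T).filter (fun t : ℤ => ((V k ^ 8 * NB k : ℕ) : ℤ) < t ∧
        ∀ i ∈ range k, Squarefree (dd k s i t))).card : ℝ) := by
  have h0 := sieve (range k ×ˢ ({1, -1} : Finset ℤ)) (gf k s) (range k)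
    (dd k s) (NB k) (66 * V k) (V k ^ 8 * NB k) ?_ ?_ ?_ ?_ ?_
  · obtain ⟨c, hc, h⟩ := h0
    refine ⟨c, hc, ?_⟩
    filter_upwards [h] with T hT
    convert hT
  · intro p hp h2 x hx
    exact gf_roots hs hs2 hp h2 x hx
  · intro x hx t ht
    exact gf_size hs hs2 x hx t ht
  · intro p hp h2 i hi t h
    exact dd_fac hs hs2 hp h2 (mem_range.1 hi) t h
  · intro i _ n t t' h
    exact dd_per i n t t' h
  · intro p hp
    exact dd_loc hs hs2 hr hr4 p hp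

end

end Pool.Agent.Run7.h681.CQ
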