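import Pool.Agent.Run7.h681.Hex
import Pool.Agent.Run7.h681.Basic

/-!
Core of the argument: a compact set without the distance 1 cannot meet every copy of `k` in a
region if it never contains four points of a copy.
-/

open Complex Set

namespace Run7.h681

variable {ι : Type*}

/-- Classes of points of `S` which are `e`-close to some point of the copy `(x, t)`. -/
def Cl (k : ι → ℂ) (S : Set ℂ) (e : ℝ) (x : ℂ) (t : ℝ) : Set (Set ℂ) :=
  {C | ∃ i, ∃ r ∈ S, ‖pt k x t i - r‖ < e ∧ sig S r = C}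

/-- Indices of the points of the copy `(x, t)` which are `e`-close to `S`. -/
def Ix (k : ι → ℂ) (S : Set ℂ) (e : ℝ) (x : ℂ) (t : ℝ) : Set ι :=
  {i | ∃ r ∈ S, ‖pt k x t i - r‖ < e}

/-- The classes of `r` and `s` are separated at angle `t0` relative to the indices `i`, `j`. -/
def Sep (k : ι → ℂ) (S : Set ℂ) (G : ℝ) (i j : ι) (r s : ℂ) (t0 : ℝ) : Prop :=
  ∀ r' ∈ S, ∀ s' ∈ S, sig S r' = sig S r → sig S s' = sig S s →
    2 * G ≤ ‖r' - s' - exp (t0 * I) * (k i - k j)‖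

/-- Every pair of different classes close to the copy has been separated before time `t`. -/
def Hi3 (k : ι → ℂ) (S : Set ℂ) (G e : ℝ) (x : ℂ) (t : ℝ) : Prop :=
  ∀ i j, ∀ r ∈ S, ∀ s ∈ S, ‖pt k x t i - r‖ < e → ‖pt k x t j - s‖ < e → sig S r ≠ sig S s →
    ∃ t0 ∈ Icc (0 : ℝ) t, Sep k S G i j r s t0

/-- Some class close to the copy is close to a copy in position `Q`. -/
def HiF (k : ι → ℂ) (S : Set ℂ) (e : ℝ) (Q : ℂ → Prop) (x : ℂ) (t : ℝ) : Prop :=
  ∃ x' : ℂ, Q x' ∧ ∃ t' : ℝ, (Cl k S e x t ∩ Cl k S e x' t').Nonempty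

theorem Cl_mono {k : ι → ℂ} {S : Set ℂ} {e e' : ℝ} (h : e ≤ e') (x : ℂ) (t : ℝ) :
    Cl k S e x t ⊆ Cl k S e' x t := by
  rintro C ⟨i, r, hr, h1, h2⟩
  exact ⟨i, r, hr, h1.trans_le h, h2⟩

theorem Cl_move {k : ι → ℂ} {S : Set ℂ} {e e' d : ℝ} {x x' : ℂ} {t t' : ℝ}
    (hd : ∀ i, ‖pt k x t i - pt k x' t' i‖ < d) (h : e + d ≤ e') :
    Cl k S e x' t' ⊆ Cl k S e' x t := by
  rintro C ⟨i, r, hr, h1, h2⟩
  refine ⟨i, r, hr, ?_, h2⟩
  have := norm_sub_le_norm_sub_add_norm_sub (pt k x t i) (pt k x' t' i) r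
  linarith [hd i]

theorem Ix_mono {k : ι → ℂ} {S : Set ℂ} {e e' : ℝ} (h : e ≤ e') (x : ℂ) (t : ℝ) :
    Ix k S e x t ⊆ Ix k S e' x t := by
  rintro i ⟨r, hr, h1⟩
  exact ⟨r, hr, h1.trans_le h⟩

theorem Cl_encard {k : ι → ℂ} {S : Set ℂ} {G e : ℝ} (hG : Gap S G) (he : e ≤ G) (x : ℂ) (t : ℝ) :
    (Cl k S e x t).encard ≤ (Ix k S e x t).encard := by
  classical
  let f : ι → Set ℂ := fun i => if h : ∃ r ∈ S, ‖pt k x t i - r‖ < e then sig S h.choose else ∅
  refine le_trans (Set.encard_le_encard (t := f '' Ix k S e x t) ?_) (Set.encard_image_le _ _)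
  rintro C ⟨i, r, hr, h1, h2⟩
  have hex : ∃ r ∈ S, ‖pt k x t i - r‖ < e := ⟨r, hr, h1⟩
  refine ⟨i, hex, ?_⟩
  have hf : f i = sig S hex.choose := dif_pos hex
  rw [hf, ← h2]
  obtain ⟨h3, h4⟩ := hex.choose_spec
  refine sig_eq_of_near hG h3 hr ?_
  have h5 := norm_sub_le_norm_sub_add_norm_sub hex.choose (pt k x t i) r
  rw [norm_sub_rev hex.choose (pt k x t i)] at h5
  linarith

theorem Ix_encard [Fintype ι] {k : ι → ℂ} {S : Set ℂ} {e : ℝ} {x : ℂ} {t : ℝ}
    (h : ∀ A : Finset ι, A.card = 4 → ∃ i ∈ A, ∀ r ∈ S, e ≤ ‖pt k x t i - r‖) :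
    (Ix k S e x t).encard ≤ 3 := by
  classical
  by_contra hcon
  push Not at hcon
  have hfin : (Ix k S e x t).Finite := Set.toFinite _
  have h4 : 4 ≤ hfin.toFinset.card := by
    rw [hfin.encard_eq_coe_toFinset_card] at hcon
    have : 3 < hfin.toFinset.card := by exact_mod_cast hcon
    omega
  obtain ⟨A, hA, hA4⟩ := Finset.exists_subset_card_eq h4
  obtain ⟨i, hi, hfar⟩ := h A hA4
  obtain ⟨r, hr, hlt⟩ := hfin.mem_toFinset.1 (hA hi)
  linarith [hfar r hr]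

theorem far {k : ι → ℂ} {S : Set ℂ} {e M : ℝ} (he : e ≤ 1 / 2) (hM : ∀ i, ‖k i‖ ≤ M)
    {x x' : ℂ} {t t' : ℝ} (h : (Cl k S e x t ∩ Cl k S e x' t').Nonempty) :
    ‖x - x'‖ < 2 * M + 2 := by
  obtain ⟨C, ⟨i, r, hr, h1, h2⟩, ⟨j, s, hs, h3, h4⟩⟩ := h
  have h5 : ‖r - s‖ < 1 := near_of_sig_eq hr (h2.trans h4.symm)
  have e1 : x - x' = (pt k x t i - r) + (r - s) - (pt k x' t' j - s) - exp (t * I) * k i
      + exp (t' * I) * k j := by
    unfold pt; ring
  have n1 : ‖exp (t * I) * k i‖ ≤ M := by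
    rw [norm_mul, norm_exp_ofReal_mul_I, one_mul]; exact hM i
  have n2 : ‖exp (t' * I) * k j‖ ≤ M := by
    rw [norm_mul, norm_exp_ofReal_mul_I, one_mul]; exact hM j
  rw [e1]
  have m1 := norm_add_le ((pt k x t i - r) + (r - s) - (pt k x' t' j - s) - exp (t * I) * k i)
    (exp (t' * I) * k j)
  have m2 := norm_sub_le ((pt k x t i - r) + (r - s) - (pt k x' t' j - s)) (exp (t * I) * k i)
  have m3 := norm_sub_le ((pt k x t i - r) + (r - s)) (pt k x' t' j - s)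
  have m4 := norm_add_le (pt k x t i - r) (r - s)
  linarith

theorem pt_sub (k : ι → ℂ) (x : ℂ) (t : ℝ) (i j : ι) :
    pt k x t i - pt k x t j = exp (t * I) * (k i - k j) := by
  unfold pt; ring

/-- Close pairs are not separated at the present angle. -/
theorem near_pair {k : ι → ℂ} {e : ℝ} {x : ℂ} {t : ℝ} {i j : ι} {r s : ℂ}
    (h1 : ‖pt k x t i - r‖ < e) (h2 : ‖pt k x t j - s‖ < e) :
    ‖r - s - exp (t * I) * (k i - k j)‖ < 2 * e := by
  have : r - s - exp (t * I) * (k i - k j) = (pt k x t j - s) - (pt k x t i - r) := by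
    rw [← pt_sub k x t i j]; ring
  rw [this]
  have := norm_sub_le (pt k x t j - s) (pt k x t i - r)
  linarith

/-- Type 3 copies which are neighbours have the same sign. -/
theorem step3 [Fintype ι] {k : ι → ℂ} {S : Set ℂ} {G e M b : ℝ} (hG : Gap S G) (hG0 : 0 < G)
    (he0 : 0 < e) (he : e ≤ G) (hM : ∀ i, ‖k i‖ ≤ M) {x x' : ℂ} {t t' : ℝ}
    (hmove : ∀ i, ‖pt k x t i - pt k x' t' i‖ < e / 4)
    (hb : |t - t'| ≤ b) (hbM : b * (2 * M) ≤ e / 2)
    (hI : (Ix k S e x t).encard ≤ 3)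
    (h3 : 3 ≤ (Cl k S (e / 2) x t).encard)
    (hHi : Hi3 k S G (e / 2) x t) : Hi3 k S G (e / 2) x' t' := by
  intro i j r hr s hs hir hjs hne
  -- the near indices at both levels coincide
  have hIx : Ix k S (e / 2) x t = Ix k S e x t := by
    have hfin : (Ix k S e x t).Finite := Set.toFinite _
    refine hfin.eq_of_subset_of_encard_le' (Ix_mono (by linarith) x t) ?_
    exact hI.trans (h3.trans (Cl_encard hG (by linarith) x t))
  have aux : ∀ (i : ι) (r : ℂ), r ∈ S → ‖pt k x' t' i - r‖ < e / 2 →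
      ∃ r' ∈ S, ‖pt k x t i - r'‖ < e / 2 ∧ sig S r' = sig S r := by
    intro i r hr hir
    have h5 := norm_sub_le_norm_sub_add_norm_sub (pt k x t i) (pt k x' t' i) r
    have h6 := hmove i
    have h7 : i ∈ Ix k S e x t := ⟨r, hr, by linarith⟩
    rw [← hIx] at h7
    obtain ⟨r', hr', h8⟩ := h7
    refine ⟨r', hr', h8, sig_eq_of_near hG hr' hr ?_⟩
    have h9 := norm_sub_le_norm_sub_add_norm_sub r' (pt k x t i) r
    rw [norm_sub_rev r' (pt k x t i)] at h9
    linarith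
  obtain ⟨r', hr', h4, h5⟩ := aux i r hr hir
  obtain ⟨s', hs', h6, h7⟩ := aux j s hs hjs
  obtain ⟨t0, ht0, hsep⟩ := hHi i j r' hr' s' hs' h4 h6 (by rw [h5, h7]; exact hne)
  have hsep' : Sep k S G i j r s t0 := by
    intro r'' hr'' s'' hs'' h8 h9
    exact hsep r'' hr'' s'' hs'' (h8.trans h5.symm) (h9.trans h7.symm)
  refine ⟨t0, ⟨ht0.1, ?_⟩, hsep'⟩
  by_contra hlt
  push Not at hlt
  have h8 := hsep' r hr s hs rfl rfl
  have h9 := near_pair hir hjs
  have h10 : ‖exp (t0 * I) * (k i - k j) - exp (t' * I) * (k i - k j)‖ ≤ b * (2 * M) := by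
    rw [← sub_mul, norm_mul]
    have e1 := exp_sub_exp_le t0 t'
    have e2 : |t0 - t'| ≤ b := by
      rw [abs_of_pos (by linarith)]
      have := (abs_le.1 hb).2
      linarith [ht0.2]
    have e3 : ‖k i - k j‖ ≤ 2 * M := by
      have := norm_sub_le (k i) (k j)
      linarith [hM i, hM j]
    have hb0 : 0 ≤ b := (abs_nonneg _).trans hb
    exact mul_le_mul (e1.trans e2) e3 (norm_nonneg _) hb0
  have e4 : r - s - exp (t0 * I) * (k i - k j) = (r - s - exp (t' * I) * (k i - k j)) -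
      (exp (t0 * I) * (k i - k j) - exp (t' * I) * (k i - k j)) := by ring
  rw [e4] at h8
  have h11 := norm_sub_le (r - s - exp (t' * I) * (k i - k j))
    (exp (t0 * I) * (k i - k j) - exp (t' * I) * (k i - k j))
  linarith

theorem HiF_congr {k : ι → ℂ} {S : Set ℂ} {e : ℝ} {Q : ℂ → Prop} {x x' : ℂ} {t t' : ℝ}
    (h : Cl k S e x t = Cl k S e x' t') : HiF k S e Q x t ↔ HiF k S e Q x' t' := by
  unfold HiF
  rw [h]

/-- Type 2 copies which are neighbours see the same classes. -/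
theorem step2 [Fintype ι] {k : ι → ℂ} {S : Set ℂ} {G e : ℝ} (hG : Gap S G)
    (he0 : 0 < e) (he : e ≤ G) {x x' : ℂ} {t t' : ℝ}
    (hmove : ∀ i, ‖pt k x t i - pt k x' t' i‖ < e / 4)
    (h3 : ¬ 3 ≤ (Cl k S (e / 2) x t).encard) (h3' : ¬ 3 ≤ (Cl k S (e / 2) x' t').encard)
    (h2' : 2 ≤ (Cl k S (e / 4) x' t').encard) :
    Cl k S (e / 2) x t = Cl k S (e / 2) x' t' := by
  have fin : ∀ x t, (Cl k S (e / 2) x t).Finite := by
    intro x t
    have h := Cl_encard (k := k) hG (show e / 2 ≤ G by linarith) x t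
    exact Set.finite_of_encard_le_coe
      (k := (Set.toFinite (Ix k S (e / 2) x t)).toFinset.card)
      (h.trans (Set.toFinite (Ix k S (e / 2) x t)).encard_eq_coe_toFinset_card.le)
  have le2 : ∀ x t, ¬ 3 ≤ (Cl k S (e / 2) x t).encard → (Cl k S (e / 2) x t).encard ≤ 2 := by
    intro x t h
    push Not at h
    have h1 := (fin x t).encard_eq_coe_toFinset_card
    rw [h1] at h ⊢
    have : (fin x t).toFinset.card < 3 := by exact_mod_cast h
    have : (fin x t).toFinset.card ≤ 2 := by omega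
    exact_mod_cast this
  have a1 : Cl k S (e / 4) x' t' = Cl k S (e / 2) x' t' :=
    (fin x' t').eq_of_subset_of_encard_le' (Cl_mono (by linarith) x' t')
      ((le2 x' t' h3').trans h2')
  have a2 : Cl k S (e / 4) x' t' = Cl k S (e / 2) x t :=
    (fin x t).eq_of_subset_of_encard_le' (Cl_move hmove (by linarith))
      ((le2 x t h3).trans h2')
  rw [← a2, a1]

/-- Type 1 copies which are neighbours see the same class. -/
theorem step1 {k : ι → ℂ} {S : Set ℂ} {e : ℝ}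
    (he0 : 0 < e) {x x' : ℂ} {t t' : ℝ}
    (hmove : ∀ i, ‖pt k x t i - pt k x' t' i‖ < e / 4)
    (h2 : ¬ 2 ≤ (Cl k S (e / 4) x t).encard) (h2' : ¬ 2 ≤ (Cl k S (e / 4) x' t').encard)
    (hit : ∃ i, pt k x' t' i ∈ S) :
    Cl k S (e / 4) x t = Cl k S (e / 4) x' t' := by
  obtain ⟨i, hi⟩ := hit
  have m1 : sig S (pt k x' t' i) ∈ Cl k S (e / 4) x' t' := ⟨i, _, hi, by simp; linarith, rfl⟩
  have m2 : sig S (pt k x' t' i) ∈ Cl k S (e / 4) x t := ⟨i, _, hi, hmove i, rfl⟩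
  have sub : ∀ x t, ¬ 2 ≤ (Cl k S (e / 4) x t).encard → (Cl k S (e / 4) x t).Subsingleton := by
    intro x t h
    rw [← Set.encard_le_one_iff_subsingleton]
    by_contra h1
    push Not at h1
    exact h (by
      have := Order.add_one_le_of_lt h1
      rwa [one_add_one_eq_two] at this)
  have b1 := sub x t h2
  have b2 := sub x' t' h2'
  ext C
  constructor
  · intro hC
    rw [b1 hC m2]; exact m1
  · intro hC
    rw [b2 hC m1]; exact m2

end Run7.h681
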