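import Mathlib
import Pool.Agent.H63Fed.Kuhn

/-!
A three dimensional Hex lemma for king moves on a grid, from Kuhn's cubical Sperner lemma.
-/

namespace Run7.h681

/-- Interior points of the grid `{0,…,m}^3`. -/
def Inner (m : ℕ) (v : ℕ → ℕ) : Prop := ∀ i, i < 3 → 1 ≤ v i ∧ v i + 1 ≤ m

/-- Sperner labels attached to Hex labels. -/
noncomputable def lam (m : ℕ) (L : (ℕ → ℕ) → ℕ × Bool) (x : ℕ → ℕ) : ℕ :=
  if x 0 = m then 0 else if x 1 = m then 1 else if x 2 = m then 2 else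
  if x 0 = 0 ∨ x 1 = 0 ∨ x 2 = 0 then 3 else if (L x).2 = true then (L x).1 else 3

theorem inner_of {m : ℕ} {y : ℕ → ℕ} (hy : ∀ i, i < 3 → y i ≤ m) (h0 : y 0 ≠ m) (h1 : y 1 ≠ m)
    (h2 : y 2 ≠ m) (h3 : ¬ (y 0 = 0 ∨ y 1 = 0 ∨ y 2 = 0)) : Inner m y := by
  intro i hi
  have := hy i hi
  interval_cases i <;> omega

theorem lam_lt {m : ℕ} {L : (ℕ → ℕ) → ℕ × Bool} {y : ℕ → ℕ} (hy : ∀ i, i < 3 → y i ≤ m) {k : ℕ}
    (hk : k < 3) (h : lam m L y = k) : y k = m ∨ (Inner m y ∧ L y = (k, true)) := by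
  unfold lam at h
  by_cases h0 : y 0 = m
  · rw [if_pos h0] at h
    subst h
    exact Or.inl h0
  rw [if_neg h0] at h
  by_cases h1 : y 1 = m
  · rw [if_pos h1] at h
    subst h
    exact Or.inl h1
  rw [if_neg h1] at h
  by_cases h2 : y 2 = m
  · rw [if_pos h2] at h
    subst h
    exact Or.inl h2
  rw [if_neg h2] at h
  by_cases h3 : y 0 = 0 ∨ y 1 = 0 ∨ y 2 = 0
  · rw [if_pos h3] at h
    omega
  rw [if_neg h3] at h
  by_cases h4 : (L y).2 = true
  · rw [if_pos h4] at h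
    exact Or.inr ⟨inner_of hy h0 h1 h2 h3, Prod.ext h h4⟩
  · rw [if_neg h4] at h
    omega

theorem lam_three {m : ℕ} {L : (ℕ → ℕ) → ℕ × Bool} {y : ℕ → ℕ} (hy : ∀ i, i < 3 → y i ≤ m)
    (hL : (L y).1 < 3)
    (h : lam m L y = 3) : (∃ i, i < 3 ∧ y i = 0) ∨ (Inner m y ∧ (L y).2 = false) := by
  unfold lam at h
  by_cases h0 : y 0 = m
  · rw [if_pos h0] at h
    omega
  rw [if_neg h0] at h
  by_cases h1 : y 1 = m
  · rw [if_pos h1] at h
    omega
  rw [if_neg h1] at h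
  by_cases h2 : y 2 = m
  · rw [if_pos h2] at h
    omega
  rw [if_neg h2] at h
  by_cases h3 : y 0 = 0 ∨ y 1 = 0 ∨ y 2 = 0
  · left
    rcases h3 with h | h | h
    · exact ⟨0, by omega, h⟩
    · exact ⟨1, by omega, h⟩
    · exact ⟨2, by omega, h⟩
  rw [if_neg h3] at h
  by_cases h4 : (L y).2 = true
  · rw [if_pos h4] at h
    omega
  · exact Or.inr ⟨inner_of hy h0 h1 h2 h3, by simpa using h4⟩

/-- **Hex lemma** in dimension 3. The interior grid points carry labels `(k, s)` with `k < 3`;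
no label `(k, true)` on the low face and no label `(k, false)` on the high face in direction `k`.
Then two neighbouring points carry opposite labels. -/
theorem hex3 (m : ℕ) (hm : 3 ≤ m) (L : (ℕ → ℕ) → ℕ × Bool) (hk : ∀ v, (L v).1 < 3)
    (hlo : ∀ v : ℕ → ℕ, Inner m v → ∀ k, k < 3 → v k = 1 → L v ≠ (k, true))
    (hhi : ∀ v : ℕ → ℕ, Inner m v → ∀ k, k < 3 → v k + 1 = m → L v ≠ (k, false)) :
    ∃ v w : ℕ → ℕ, Inner m v ∧ Inner m w ∧ (∀ i, i < 3 → v i ≤ w i + 1 ∧ w i ≤ v i + 1) ∧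
      ∃ k, k < 3 ∧ L v = (k, true) ∧ L w = (k, false) := by
  obtain ⟨x, hx, hy⟩ := H63Fed.Kuhn.kuhn 3 m (lam m L)
    (by
      intro x _
      have := hk x
      unfold lam
      split_ifs <;> omega)
    (by
      intro i hi x hxm hxi hl
      have h0 : 0 < m := by omega
      rcases lam_lt (fun i _ => hxm i) hi hl with h | ⟨h, _⟩
      · omega
      · have := (h i hi).1
        omega)
    (by
      intro i hi x _ hxi
      unfold lam
      interval_cases i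
      · rw [if_pos hxi]
      · split_ifs <;> omega
      · split_ifs <;> omega)
  -- the vertices of the full cube
  have key : ∀ y : ℕ → ℕ, (∀ i, i < 3 → y i = x i ∨ y i = x i + 1) → ∀ y' : ℕ → ℕ,
      (∀ i, i < 3 → y' i = x i ∨ y' i = x i + 1) → ∀ i, i < 3 → y i ≤ y' i + 1 := by
    intro y h1 y' h2 i hi
    rcases h1 i hi with h | h <;> rcases h2 i hi with h' | h' <;> omega
  have hle : ∀ y : ℕ → ℕ, (∀ i, i < 3 → y i = x i ∨ y i = x i + 1) → ∀ i, i < 3 → y i ≤ m := by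
    intro y h1 i hi
    have := hx i hi
    rcases h1 i hi with h | h <;> omega
  obtain ⟨z, hz1, _, hz3⟩ := hy 3 le_rfl
  rcases lam_three (hle z hz1) (hk z) hz3 with ⟨i, hi, hzi⟩ | ⟨hzI, hzf⟩
  · obtain ⟨y, hy1, _, hy3⟩ := hy i (by omega)
    have h5 := key y hy1 z hz1 i hi
    rcases lam_lt (hle y hy1) hi hy3 with h | ⟨hI, hL⟩
    · omega
    · have := (hI i hi).1
      exact absurd hL (hlo y hI i hi (by omega))
  · have hk3 := hk z
    obtain ⟨y, hy1, _, hy3⟩ := hy (L z).1 (by omega)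
    have h5 := key y hy1 z hz1
    have h6 := key z hz1 y hy1
    have hLz : L z = ((L z).1, false) := Prod.ext rfl hzf
    rcases lam_lt (hle y hy1) hk3 hy3 with h | ⟨hI, hL⟩
    · have h7 := h5 _ hk3
      have h8 := (hzI _ hk3).2
      exact absurd hLz (hhi z hzI _ hk3 (by omega))
    · exact ⟨y, z, hI, hzI, fun i hi => ⟨h5 i hi, h6 i hi⟩, (L z).1, hk3, hL, hLz⟩

end Run7.h681
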