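import Pool.Agent.Run7.h681.Core

/-!
The four point theorem.
-/

open Complex Set

namespace Run7.h681

variable {ι : Type*}

/-- Grid coordinates. -/
noncomputable def gx (L a : ℝ) (v : ℕ → ℕ) : ℂ :=
  ⟨-L + a * ((v 0 : ℝ) - 1), -L + a * ((v 1 : ℝ) - 1)⟩

noncomputable def gt (b : ℝ) (v : ℕ → ℕ) : ℝ := b * ((v 2 : ℝ) - 1)

open Classical in
/-- Hex labels. -/
noncomputable def lab (k : ι → ℂ) (S : Set ℂ) (G e L : ℝ) (x : ℂ) (t : ℝ) : ℕ × Bool :=
  if 3 ≤ (Cl k S (e / 2) x t).encard then (2, decide (Hi3 k S G (e / 2) x t))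
  else if 2 ≤ (Cl k S (e / 4) x t).encard then (1, decide (HiF k S (e / 2) (fun z => z.im = L) x t))
  else (0, decide (HiF k S (e / 4) (fun z => z.re = L) x t))

theorem move_bound {k : ι → ℂ} {M a b : ℝ} (hM : ∀ i, ‖k i‖ ≤ M) {x x' : ℂ} {t t' : ℝ}
    (h1 : |x.re - x'.re| ≤ a) (h2 : |x.im - x'.im| ≤ a) (h3 : |t - t'| ≤ b) (i : ι) :
    ‖pt k x t i - pt k x' t' i‖ ≤ 2 * a + b * M := by
  have e : pt k x t i - pt k x' t' i = (x - x') + (exp (t * I) - exp (t' * I)) * k i := by
    unfold pt; ring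
  rw [e]
  refine (norm_add_le _ _).trans ?_
  have h4 := norm_le_abs_re_add_abs_im (x - x')
  rw [sub_re, sub_im] at h4
  rw [norm_mul]
  have h5 := mul_le_mul ((exp_sub_exp_le t t').trans h3) (hM i) (norm_nonneg _)
    ((abs_nonneg _).trans h3)
  linarith

theorem gx_adj {L a : ℝ} (ha : 0 ≤ a) {v w : ℕ → ℕ} (h : ∀ i, i < 3 → v i ≤ w i + 1 ∧ w i ≤ v i + 1) :
    |(gx L a v).re - (gx L a w).re| ≤ a ∧ |(gx L a v).im - (gx L a w).im| ≤ a := by
  have key : ∀ p q : ℕ, p ≤ q + 1 → q ≤ p + 1 →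
      |(-L + a * ((p : ℝ) - 1)) - (-L + a * ((q : ℝ) - 1))| ≤ a := by
    intro p q h1 h2
    have e : (-L + a * ((p : ℝ) - 1)) - (-L + a * ((q : ℝ) - 1)) = a * ((p : ℝ) - q) := by ring
    have h1' : (p : ℝ) ≤ q + 1 := by exact_mod_cast h1
    have h2' : (q : ℝ) ≤ p + 1 := by exact_mod_cast h2
    have h3 : |(p : ℝ) - q| ≤ 1 := abs_le.2 ⟨by linarith, by linarith⟩
    rw [e, abs_mul, abs_of_nonneg ha]
    nlinarith
  exact ⟨key _ _ (h 0 (by omega)).1 (h 0 (by omega)).2, key _ _ (h 1 (by omega)).1 (h 1 (by omega)).2⟩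

theorem gt_adj {b : ℝ} (hb : 0 ≤ b) {v w : ℕ → ℕ} (h : ∀ i, i < 3 → v i ≤ w i + 1 ∧ w i ≤ v i + 1) :
    |gt b v - gt b w| ≤ b := by
  obtain ⟨h1, h2⟩ := h 2 (by omega)
  have e : gt b v - gt b w = b * ((v 2 : ℝ) - w 2) := by unfold gt; ring
  have h1' : (v 2 : ℝ) ≤ w 2 + 1 := by exact_mod_cast h1
  have h2' : (w 2 : ℝ) ≤ v 2 + 1 := by exact_mod_cast h2
  have h3 : |(v 2 : ℝ) - w 2| ≤ 1 := abs_le.2 ⟨by linarith, by linarith⟩
  rw [e, abs_mul, abs_of_nonneg hb]
  nlinarith

/-- **Four point theorem.** -/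
theorem core [Fintype ι] (k : ι → ℂ) {M : ℝ} (hM0 : 0 ≤ M) (hM : ∀ i, ‖k i‖ ≤ M) {S : Set ℂ}
    (hS : IsCompact S) (h1 : ∀ p ∈ S, ∀ q ∈ S, ‖p - q‖ ≠ 1)
    (h2 : ∀ x : ℂ, ‖x‖ ≤ 2 * M + 2 → ∀ t : ℝ, ∃ i, pt k x t i ∈ S)
    (h3 : ∀ x : ℂ, ‖x‖ ≤ 2 * M + 2 → ∀ t : ℝ, ∀ A : Finset ι, A.card = 4 →
      ∃ i ∈ A, pt k x t i ∉ S) : False := by
  classical
  obtain ⟨G, hG0, hG4, hG⟩ := gap_exists hS h1
  obtain ⟨e0, he00, hE⟩ := eps_exists k hS (by linarith) h3
  set e : ℝ := min e0 G with he_def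
  have he0 : 0 < e := lt_min he00 hG0
  have heG : e ≤ G := min_le_right _ _
  have hee : e ≤ e0 := min_le_left _ _
  have hIx : ∀ x : ℂ, ‖x‖ ≤ 2 * M + 2 → ∀ t ∈ Icc (0 : ℝ) (2 * Real.pi),
      (Ix k S e x t).encard ≤ 3 := by
    intro x hx t ht
    refine Ix_encard fun A hA => ?_
    obtain ⟨i, hi, hr⟩ := hE x hx t ht A hA
    exact ⟨i, hi, fun r hrS => hee.trans (hr r hrS)⟩
  have hpi := Real.pi_pos
  -- the mesh
  obtain ⟨N, hN⟩ := exists_nat_gt ((4 * (M + 1) + 4 * Real.pi * (M + 1)) / (e / 4))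
  have hNpos : (0 : ℝ) < N := lt_of_le_of_lt (by positivity) hN
  have hN1 : 1 ≤ N := by
    have : 0 < N := by exact_mod_cast hNpos
    omega
  set L : ℝ := M + 1 with hL
  set a : ℝ := 2 * L / N with ha
  set b : ℝ := 2 * Real.pi / N with hb
  have ha0 : 0 ≤ a := by positivity
  have hb0 : 0 ≤ b := by positivity
  have hmesh : 2 * a + b * (2 * M) < e / 4 := by
    have h5 : (4 * (M + 1) + 4 * Real.pi * (M + 1)) / N < e / 4 := by
      rw [div_lt_iff₀ hNpos]
      rw [div_lt_iff₀ (by positivity)] at hN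
      linarith
    have h6 : 2 * a + b * (2 * M) = (4 * (M + 1) + 4 * Real.pi * M) / N := by
      rw [ha, hb, hL]; field_simp; ring
    have h7 : (4 * (M + 1) + 4 * Real.pi * M) / N ≤ (4 * (M + 1) + 4 * Real.pi * (M + 1)) / N := by
      apply div_le_div_of_nonneg_right _ hNpos.le
      nlinarith
    linarith
  have haN : a * N = 2 * L := by rw [ha]; field_simp
  have hbN : b * N = 2 * Real.pi := by rw [hb]; field_simp
  have hbM0 : 0 ≤ b * M := by positivity
  -- the grid stays in the region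
  have hcoord : ∀ v, Inner (N + 2) v → ∀ i, i < 3 → (0 : ℝ) ≤ (v i : ℝ) - 1 ∧ (v i : ℝ) - 1 ≤ N := by
    intro v hv i hi
    obtain ⟨h5, h6⟩ := hv i hi
    have h5' : (1 : ℝ) ≤ v i := by exact_mod_cast h5
    have h6' : (v i : ℝ) + 1 ≤ N + 2 := by exact_mod_cast h6
    exact ⟨by linarith, by linarith⟩
  have hreg : ∀ v, Inner (N + 2) v → ‖gx L a v‖ ≤ 2 * M + 2 := by
    intro v hv
    have c0 := hcoord v hv 0 (by omega)
    have c1 := hcoord v hv 1 (by omega)
    have key : ∀ p : ℝ, 0 ≤ p → p ≤ N → |-L + a * p| ≤ L := by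
      intro p hp hpN
      have : a * p ≤ a * N := mul_le_mul_of_nonneg_left hpN ha0
      have : 0 ≤ a * p := mul_nonneg ha0 hp
      exact abs_le.2 ⟨by linarith, by linarith⟩
    refine (norm_le_abs_re_add_abs_im _).trans ?_
    have k0 := key _ c0.1 c0.2
    have k1 := key _ c1.1 c1.2
    have : |(gx L a v).re| + |(gx L a v).im| ≤ L + L := add_le_add k0 k1
    linarith
  have htime : ∀ v, Inner (N + 2) v → gt b v ∈ Icc (0 : ℝ) (2 * Real.pi) := by
    intro v hv
    have c2 := hcoord v hv 2 (by omega)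
    refine ⟨mul_nonneg hb0 c2.1, ?_⟩
    have : b * ((v 2 : ℝ) - 1) ≤ b * N := mul_le_mul_of_nonneg_left c2.2 hb0
    rw [hbN] at this
    exact this
  have hClne : ∀ v, Inner (N + 2) v → ∀ d, 0 < d → (Cl k S d (gx L a v) (gt b v)).Nonempty := by
    intro v hv d hd
    obtain ⟨i, hi⟩ := h2 _ (hreg v hv) (gt b v)
    exact ⟨_, i, _, hi, by simpa using hd, rfl⟩
  obtain ⟨v, w, hv, hw, hvw, c, hc3, hLv, hLw⟩ := hex3 (N + 2) (by omega)
    (fun v => lab k S G e L (gx L a v) (gt b v))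
    (by
      intro v
      unfold lab
      split_ifs <;> simp)
    (by
      intro v hv c hc hvc hlab
      unfold lab at hlab
      split_ifs at hlab with t3 t2
      · -- type 3 on the face of angle 0
        obtain ⟨hc2, hHi⟩ := Prod.ext_iff.1 hlab
        simp only at hc2 hHi
        subst hc2
        have hHi' := of_decide_eq_true hHi
        have ht0 : gt b v = 0 := by unfold gt; rw [hvc]; simp
        have hnt : (Cl k S (e / 2) (gx L a v) (gt b v)).Nontrivial := by
          rw [← Set.one_lt_encard_iff_nontrivial]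
          exact lt_of_lt_of_le (by norm_num) t3
        obtain ⟨C, ⟨i, r, hr, hir, hC⟩, C', ⟨j, s, hs, hjs, hC'⟩, hne⟩ := hnt
        obtain ⟨t0, ht0', hsep⟩ := hHi' i j r hr s hs hir hjs (by rw [hC, hC']; exact hne)
        rw [ht0] at ht0'
        have : t0 = 0 := le_antisymm ht0'.2 ht0'.1
        subst this
        have h8 := hsep r hr s hs rfl rfl
        have h9 := near_pair hir hjs
        rw [ht0] at h9
        linarith
      · -- type 2 on the low face
        obtain ⟨hc2, hHi⟩ := Prod.ext_iff.1 hlab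
        simp only at hc2 hHi
        subst hc2
        obtain ⟨x', hx', t', hne⟩ := of_decide_eq_true hHi
        have h5 := far (by linarith) hM hne
        have h6 := abs_im_le_norm (gx L a v - x')
        rw [sub_im, hx'] at h6
        have h7 : (gx L a v).im = -L := by unfold gx; rw [hvc]; simp
        rw [h7, abs_of_nonpos (by linarith)] at h6
        linarith
      · obtain ⟨hc2, hHi⟩ := Prod.ext_iff.1 hlab
        simp only at hc2 hHi
        subst hc2
        obtain ⟨x', hx', t', hne⟩ := of_decide_eq_true hHi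
        have h5 := far (by linarith) hM hne
        have h6 := abs_re_le_norm (gx L a v - x')
        rw [sub_re, hx'] at h6
        have h7 : (gx L a v).re = -L := by unfold gx; rw [hvc]; simp
        rw [h7, abs_of_nonpos (by linarith)] at h6
        linarith)
    (by
      intro v hv c hc hvc hlab
      have hvc' : (v c : ℝ) - 1 = N := by
        have : v c = N + 1 := by omega
        rw [this]; push_cast; ring
      unfold lab at hlab
      split_ifs at hlab with t3 t2
      · obtain ⟨hc2, hHi⟩ := Prod.ext_iff.1 hlab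
        simp only at hc2 hHi
        subst hc2
        refine of_decide_eq_false hHi ?_
        intro i j r hr s hs hir hjs hne
        obtain ⟨t0, ht0, H⟩ := sep hG hG0 hr hs hne (k i - k j)
        have ht : gt b v = 2 * Real.pi := by unfold gt; rw [hvc', hbN]
        exact ⟨t0, by rw [ht]; exact ht0, H⟩
      · obtain ⟨hc2, hHi⟩ := Prod.ext_iff.1 hlab
        simp only at hc2 hHi
        subst hc2
        refine of_decide_eq_false hHi ?_
        refine ⟨gx L a v, ?_, gt b v, ?_⟩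
        · unfold gx
          simp only
          rw [hvc', haN]; ring
        · rw [Set.inter_self]
          exact hClne v hv _ (by linarith)
      · obtain ⟨hc2, hHi⟩ := Prod.ext_iff.1 hlab
        simp only at hc2 hHi
        subst hc2
        refine of_decide_eq_false hHi ?_
        refine ⟨gx L a v, ?_, gt b v, ?_⟩
        · unfold gx
          simp only
          rw [hvc', haN]; ring
        · rw [Set.inter_self]
          exact hClne v hv _ (by linarith))
  have hadj := gx_adj (L := L) ha0 hvw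
  have hadt := gt_adj hb0 hvw
  have hmove : ∀ i, ‖pt k (gx L a v) (gt b v) i - pt k (gx L a w) (gt b w) i‖ < e / 4 := by
    intro i
    have := move_bound hM hadj.1 hadj.2 hadt i
    linarith
  unfold lab at hLv hLw
  split_ifs at hLv hLw with s1 s2 s3 s4 s5 s6 s7 s8
  all_goals
    obtain ⟨q1, q2⟩ := Prod.ext_iff.1 hLv
    obtain ⟨q3, q4⟩ := Prod.ext_iff.1 hLw
    simp only at q1 q2 q3 q4
    first
    | omega
    | skip
  · exact of_decide_eq_false q4 (step3 hG hG0 he0 heG hM hmove hadt (by linarith)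
      (hIx _ (hreg v hv) _ (htime v hv)) (by assumption) (of_decide_eq_true q2))
  · have := step2 hG he0 heG hmove (by assumption) (by assumption) (by assumption)
    exact of_decide_eq_false q4 ((HiF_congr this).1 (of_decide_eq_true q2))
  · have := step1 he0 hmove (by assumption) (by assumption) (h2 _ (hreg w hw) _)
    exact of_decide_eq_false q4 ((HiF_congr this).1 (of_decide_eq_true q2))

end Run7.h681
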