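import Pool.Agent.Run7.h681.Circle

/-!
Transfer of the theorems to the Euclidean plane.
-/

open Complex Set

namespace Run7.h681

/-- The Euclidean plane. -/
abbrev E2 : Type := EuclideanSpace ℝ (Fin 2)

/-- The usual identification of the complex numbers with the plane. -/
noncomputable def toE : ℂ ≃ₗᵢ[ℝ] E2 := Complex.orthonormalBasisOneI.repr

/-- The plane isometry which corresponds to `z ↦ x + exp (i t) z`. -/
noncomputable def mv (x : ℂ) (t : ℝ) : E2 ≃ᵢ E2 :=
  (toE.symm.toIsometryEquiv.trans ((rotation (Circle.exp t)).toIsometryEquiv.trans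
    (IsometryEquiv.addLeft x))).trans toE.toIsometryEquiv

theorem mv_apply (x : ℂ) (t : ℝ) (z : E2) :
    mv x t z = toE (x + exp (t * I) * toE.symm z) := by
  unfold mv
  simp [IsometryEquiv.trans_apply, Circle.coe_exp]

/-- The points of a finite subset of the plane as a family of complex numbers. -/
noncomputable def fam (K : Finset E2) : K → ℂ := fun k => toE.symm (k : E2)

theorem mv_pt (K : Finset E2) (x : ℂ) (t : ℝ) (k : K) :
    mv x t (k : E2) = toE (pt (fam K) x t k) := by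
  rw [mv_apply]; rfl

theorem fam_bound (K : Finset E2) : ∃ M : ℝ, 0 ≤ M ∧ ∀ k : K, ‖fam K k‖ ≤ M := by
  refine ⟨∑ k : K, ‖fam K k‖, Finset.sum_nonneg fun _ _ => norm_nonneg _, fun k => ?_⟩
  exact Finset.single_le_sum (f := fun k => ‖fam K k‖) (fun _ _ => norm_nonneg _)
    (Finset.mem_univ k)

theorem dist_toE (p q : ℂ) : dist (toE p) (toE q) = ‖p - q‖ := by
  rw [toE.dist_map, dist_eq_norm]

/-- Closed sets, in the plane. -/
theorem plane_closed (K : Finset E2) (hK : K.card ≤ 6) (F : Set E2) (hF : IsClosed F)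
    (h2 : ∀ g : E2 ≃ᵢ E2, ∃ k ∈ K, g k ∈ F) : ∃ p ∈ F, ∃ q ∈ F, dist p q = 1 := by
  by_contra hcon
  push Not at hcon
  obtain ⟨M, hM0, hM⟩ := fam_bound K
  refine closed_six (ι := K) (by simpa using hK) (fam K) hM0 hM (F := toE ⁻¹' F)
    (hF.preimage toE.continuous) ?_ ?_
  · intro p hp q hq
    rw [← dist_toE]
    exact hcon _ hp _ hq
  · intro x _ t
    obtain ⟨k, hk, hg⟩ := h2 (mv x t)
    refine ⟨⟨k, hk⟩, ?_⟩
    rw [mem_preimage, ← mv_pt K x t ⟨k, hk⟩]
    exact hg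

/-- Arbitrary sets: the closure contains two points at distance 1. -/
theorem plane_closure (K : Finset E2) (hK : K.card ≤ 6) (R : Set E2)
    (h2 : ∀ g : E2 ≃ᵢ E2, ∃ k ∈ K, g k ∈ R) :
    ∃ p ∈ closure R, ∃ q ∈ closure R, dist p q = 1 :=
  plane_closed K hK _ isClosed_closure fun g => by
    obtain ⟨k, hk, h⟩ := h2 g
    exact ⟨k, hk, subset_closure h⟩

/-- Open sets, in the plane. -/
theorem plane_open (K : Finset E2) (hK : K.card ≤ 6) (R : Set E2) (hR : IsOpen R)
    (h2 : ∀ g : E2 ≃ᵢ E2, ∃ k ∈ K, g k ∈ R) : ∃ p ∈ R, ∃ q ∈ R, dist p q = 1 := by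
  by_contra hcon
  push Not at hcon
  obtain ⟨M, hM0, hM⟩ := fam_bound K
  obtain ⟨F, hF, hFR, hFh⟩ := open_shrink (ι := K) (fam K) (R := toE ⁻¹' R)
    (hR.preimage toE.continuous) (B := 2 * M + 3) (by
      intro x _ t
      obtain ⟨k, hk, hg⟩ := h2 (mv x t)
      refine ⟨⟨k, hk⟩, ?_⟩
      rw [mem_preimage, ← mv_pt K x t ⟨k, hk⟩]
      exact hg)
  refine closed_six (ι := K) (by simpa using hK) (fam K) hM0 hM hF ?_ hFh
  intro p hp q hq
  rw [← dist_toE]
  exact hcon _ (hFR hp) _ (hFR hq)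

/-- Arbitrary sets: copies of `K` meeting the interior. -/
theorem plane_interior (K : Finset E2) (hK : K.card ≤ 6) (R : Set E2)
    (h2 : ∀ g : E2 ≃ᵢ E2, ∃ k ∈ K, g k ∈ interior R) : ∃ p ∈ R, ∃ q ∈ R, dist p q = 1 := by
  obtain ⟨p, hp, q, hq, h⟩ := plane_open K hK _ isOpen_interior h2
  exact ⟨p, interior_subset hp, q, interior_subset hq, h⟩

end Run7.h681
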